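import Pool.Agent.LibPR29.W1
import Pool.Agent.LibHB89.G4

set_option autoImplicit false

namespace Pool.Agent.LibPR29

open MeasureTheory Finset Pool.HB89

/-- The windows of length `m` with levels of one colour (`C` colours) in `Z` have vanishing level integrals. -/
def Sep {l : ℕ} {Ω : Type} [MeasurableSpace Ω] (ν : Measure Ω) (s : Ω → Fin (l + 1) → ℝ) (p : ℂ) (Z : Set ℂ)
    (m C : ℕ) : Prop :=
  ∃ χ : ℕ → Fin C, ∀ (F : Finset (Fin (l + 1) → ℕ)) (c : (Fin (l + 1) → ℕ) → ℚ) (a : Fin (l + 1) → ℕ),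
    (∀ i ∈ F, ∀ j, i j < m) →
    (∀ s : Fin (l + 1) → ℝ, ∑ j, s j = 1 → ∑ i ∈ F, (c i : ℝ) * ∏ j, (s j) ^ (2 * i j) = 0) →
    (∀ i ∈ F, p ^ (2 * ∑ j, (a + i) j) * ((∫ ω, ∏ j, s ω j ^ (2 * (a + i) j) ∂ν : ℝ) : ℂ) ∈ Z) →
    (∀ i ∈ F, ∀ i' ∈ F, χ (∑ j, (a + i) j) = χ (∑ j, (a + i') j)) →
    ∀ t, ∫ ω, (∏ j, s ω j ^ (2 * a j)) * MvPolynomial.eval (s ω) (B8_poly F c t) ∂ν = 0

open Classical in
/-- The density theorem in a shell `X ≤ |a| < X + T` (compare `Pool.HB89.level_density_core`). -/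
theorem core (l : ℕ) {Ω : Type} [MeasurableSpace Ω] (ν : Measure Ω)
    [IsFiniteMeasure ν]
    (s : Ω → Fin (l + 1) → ℝ) (hs : Measurable s) (h0 : ∀ᵐ ω ∂ν, ∀ i, 0 ≤ s ω i)
    (h1 : ∀ᵐ ω ∂ν, ∑ i, s ω i = 1)
    (hfull : ∀ p : Fin (l + 1) → ℝ, (∀ i, 0 < p i) → ∑ i, p i = 1 → ∀ ρ : ℝ, 0 < ρ →
      0 < ν {ω | dist (s ω) p < ρ})
    (C : ℕ) (δ : ℝ) (hδ : 0 < δ) :
    ∃ m T₀ : ℕ, ∀ T : ℕ, T₀ ≤ T → ∃ X₀ : ℕ, ∀ X : ℕ, X₀ ≤ X →
      ∀ (p : ℂ) (Z : Set ℂ), Sep ν s p Z m C →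
      (((Sh l X T).filter
        (fun a => p ^ (2 * ∑ i, a i) * ((∫ ω, ∏ i, s ω i ^ (2 * a i) ∂ν : ℝ) : ℂ) ∈ Z)).card : ℝ)
          ≤ δ * (T * X ^ l) := by
  obtain ⟨m, hm1, hm2⟩ := B8_choose_m l C (δ / 3) (by positivity)
  set box : Finset (Fin (l + 1) → ℕ) := Fintype.piFinset (fun _ => range m) with hbox
  set Fam : Finset (Finset (Fin (l + 1) → ℕ)) :=
    box.powerset.filter (fun F => (4 * m) ^ l < F.card) with hFam
  have hrel : ∀ F : Finset (Fin (l + 1) → ℕ), F ∈ Fam → ∃ c : (Fin (l + 1) → ℕ) → ℚ,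
      (∃ i ∈ F, c i ≠ 0) ∧ ∀ s : Fin (l + 1) → ℝ, ∑ j, s j = 1 →
        ∑ i ∈ F, (c i : ℝ) * ∏ j, (s j) ^ (2 * i j) = 0 := by
    intro F hF
    rw [hFam, Finset.mem_filter, Finset.mem_powerset] at hF
    refine exists_relation l m F (fun i hi j => ?_) hF.2
    have := hF.1 hi
    rw [hbox, Fintype.mem_piFinset] at this
    exact Finset.mem_range.mp (this j)
  choose! c hc1 hc2 using hrel
  choose! i₀ hi₀ using hc1
  set t : Finset (Fin (l + 1) → ℕ) → ℕ := fun F => ∑ j, i₀ F j with ht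
  set ε' : ℝ := δ / (6 * (m : ℝ) ^ (l + 1) * (Fam.card + 1)) with hε'
  have hmp : (0 : ℝ) < m := by exact_mod_cast hm1
  have hε'pos : 0 < ε' := by positivity
  have hzd : ∀ F : Finset (Fin (l + 1) → ℕ), F ∈ Fam → ∃ X₀ : ℕ, ∀ X : ℕ, X₀ ≤ X →
      (((Lev l X).filter
        (fun a => ∫ ω, (∏ i, s ω i ^ (2 * a i)) *
          MvPolynomial.eval (s ω) (B8_poly F (c F) (t F)) ∂ν = 0)).card : ℝ)
          ≤ ε' * X ^ l := by
    intro F hF
    exact zero_density_level ν s hs h0 h1 hfull (2 * t F) (B8_poly F (c F) (t F))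
      (B8_poly_hom F (c F) (t F))
      (B8_poly_ne F (c F) (t F) (i₀ F) (hi₀ F hF).1 rfl (hi₀ F hF).2) ε' hε'pos
  choose! XF hXF using hzd
  refine ⟨m, (l + 3) * m, fun T hT => ?_⟩
  obtain ⟨X₁, hX₁⟩ := B8_choose_X l (T + 2 * m)
  refine ⟨max X₁ (Fam.sup XF + (l + 1) * m), fun X hX p Z hG => ?_⟩
  obtain ⟨χ, hχ⟩ := hG
  have hX1 := hX₁ X (le_of_max_le_left hX)
  have hX2 : Fam.sup XF + (l + 1) * m ≤ X := le_of_max_le_right hX
  have hXm : (l + 1) * m ≤ X := by omega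
  -- the windows
  set S : Finset (Fin (l + 1) → ℕ) := (Sh l X T).filter
        (fun a => p ^ (2 * ∑ i, a i) * ((∫ ω, ∏ i, s ω i ^ (2 * a i) ∂ν : ℝ) : ℂ) ∈ Z) with hS
  have hSsh : ∀ a ∈ S, X ≤ ∑ i, a i ∧ ∑ i, a i < X + T := by
    intro a ha
    exact mem_Sh.1 (Finset.mem_filter.1 ha).1
  set Q : Finset (Fin (l + 1) → ℕ) := Sh l (X / m - (l + 1)) (T / m + l + 3) with hQ
  set W : (Fin (l + 1) → ℕ) → Finset (Fin (l + 1) → ℕ) :=
    fun q => box.filter (fun i => (fun j => m * q j + i j) ∈ S) with hW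
  have hXdiv : l + 1 ≤ X / m := (Nat.le_div_iff_mul_le (by omega)).2 hXm
  have hmaps : ∀ a ∈ S, (fun j => a j / m) ∈ Q := by
    intro a ha
    obtain ⟨ha1, ha2⟩ := hSsh a ha
    rw [hQ, mem_Sh]
    have hdecomp : ∑ j, a j = m * ∑ j, a j / m + ∑ j, a j % m := by
      rw [Finset.mul_sum, ← Finset.sum_add_distrib]
      exact Finset.sum_congr rfl fun j _ => (Nat.div_add_mod (a j) m).symm
    have hmod : ∑ j, a j % m ≤ (l + 1) * m := by
      calc ∑ j, a j % m ≤ ∑ _j : Fin (l + 1), m :=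
            Finset.sum_le_sum fun j _ => (Nat.mod_lt _ (by omega)).le
        _ = (l + 1) * m := by
            rw [Finset.sum_const, Finset.card_univ, Fintype.card_fin, smul_eq_mul]
    set κ : ℕ := ∑ j, a j / m with hκ
    constructor
    · have h3 : X ≤ (κ + (l + 1)) * m := by
        calc X ≤ m * κ + ∑ j, a j % m := by omega
          _ ≤ m * κ + (l + 1) * m := by omega
          _ = (κ + (l + 1)) * m := by ring
      have h4 : X / m ≤ κ + (l + 1) := Nat.div_le_of_le_mul (by rw [mul_comm]; exact h3)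
      omega
    · have h3 : m * κ < X + T := by omega
      have h4 : X + T < m * (X / m + T / m + 2) := by
        have e1 := Nat.lt_mul_div_succ X (show 0 < m by omega)
        have e2 := Nat.lt_mul_div_succ T (show 0 < m by omega)
        have e3 : m * (X / m + T / m + 2) = m * (X / m + 1) + m * (T / m + 1) := by ring
        omega
      have h5 : κ < X / m + T / m + 2 := Nat.lt_of_mul_lt_mul_left (h3.trans h4)
      omega
  have hfib : ∀ q, (S.filter (fun a => (fun j => a j / m) = q)).card ≤ (W q).card := by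
    intro q
    refine Finset.card_le_card_of_injOn (fun a j => a j % m) ?_ ?_
    · intro a ha
      rw [Finset.coe_filter] at ha
      obtain ⟨ha1, ha2⟩ := ha
      rw [Finset.mem_coe, hW, Finset.mem_filter]
      constructor
      · rw [hbox, Fintype.mem_piFinset]
        intro j
        exact Finset.mem_range.mpr (Nat.mod_lt _ (by omega))
      · have : (fun j => m * q j + a j % m) = a := by
          funext j
          rw [← ha2]
          exact Nat.div_add_mod (a j) m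
        rw [this]
        exact ha1
    · intro a ha b hb hab
      rw [Finset.coe_filter] at ha hb
      funext j
      have e1 := congrFun ha.2 j
      have e2 := congrFun hb.2 j
      have e3 := congrFun hab j
      simp only at e1 e2 e3
      rw [← Nat.div_add_mod (a j) m, ← Nat.div_add_mod (b j) m, e1, e2, e3]
  have hcardS : S.card ≤ ∑ q ∈ Q, (W q).card := by
    rw [Finset.card_eq_sum_card_fiberwise (f := fun a => (fun j => a j / m)) (t := Q)
      (fun a ha => hmaps a ha)]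
    exact Finset.sum_le_sum (fun q _ => hfib q)
  set R : Finset (Fin (l + 1) → ℕ) := Q.filter (fun q => C * (4 * m) ^ l < (W q).card) with hR
  set ZZ : Finset (Fin (l + 1) → ℕ) → Finset (Fin (l + 1) → ℕ) := fun F =>
    (Sh l (X - (l + 1) * m) (T + (l + 1) * m)).filter
        (fun a => ∫ ω, (∏ i, s ω i ^ (2 * a i)) *
          MvPolynomial.eval (s ω) (B8_poly F (c F) (t F)) ∂ν = 0) with hZZ
  have hRZZ : ∀ q ∈ R, ∃ F ∈ Fam, (fun j => m * q j) ∈ ZZ F := by
    intro q hq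
    rw [hR, Finset.mem_filter] at hq
    obtain ⟨κ, _, hκ⟩ := Finset.exists_lt_card_fiber_of_mul_lt_card_of_maps_to
      (s := W q) (t := (Finset.univ : Finset (Fin C)))
      (f := fun i => χ (∑ j, ((fun j => m * q j) + i) j)) (n := (4 * m) ^ l)
      (fun _ _ => Finset.mem_univ _) (by simpa using hq.2)
    set F : Finset (Fin (l + 1) → ℕ) :=
      (W q).filter (fun i => χ (∑ j, ((fun j => m * q j) + i) j) = κ) with hF
    have hFbox : ∀ i ∈ F, i ∈ box := by
      intro i hi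
      rw [hF, Finset.mem_filter, hW, Finset.mem_filter] at hi
      exact hi.1.1
    have hFFam : F ∈ Fam := by
      rw [hFam, Finset.mem_filter, Finset.mem_powerset]
      exact ⟨fun i hi => hFbox i hi, hκ⟩
    have hFS : ∀ i ∈ F, ((fun j => m * q j) + i) ∈ S := by
      intro i hi
      rw [hF, Finset.mem_filter, hW, Finset.mem_filter] at hi
      exact hi.1.2
    refine ⟨F, hFFam, ?_⟩
    rw [hZZ, Finset.mem_filter]
    constructor
    · have hi0 := (hi₀ F hFFam).1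
      obtain ⟨h3, h4⟩ := hSsh _ (hFS _ hi0)
      have h5 : ∑ j, ((fun j => m * q j) + i₀ F) j = ∑ j, m * q j + ∑ j, i₀ F j := by
        simp only [Pi.add_apply]
        exact Finset.sum_add_distrib
      have h6 : ∑ j, i₀ F j ≤ (l + 1) * m := by
        calc ∑ j, i₀ F j ≤ ∑ _j : Fin (l + 1), m := by
              refine Finset.sum_le_sum fun j _ => ?_
              have := hFbox _ hi0
              rw [hbox, Fintype.mem_piFinset] at this
              exact (Finset.mem_range.1 (this j)).le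
          _ = (l + 1) * m := by
              rw [Finset.sum_const, Finset.card_univ, Fintype.card_fin, smul_eq_mul]
      rw [mem_Sh]
      rw [h5] at h3 h4
      constructor
      · show X - (l + 1) * m ≤ ∑ j, m * q j
        omega
      · show ∑ j, m * q j < X - (l + 1) * m + (T + (l + 1) * m)
        omega
    · refine hχ F (c F) (fun j => m * q j)
        (fun i hi j => Finset.mem_range.1 (Fintype.mem_piFinset.1 (hFbox i hi) j))
        (hc2 F hFFam) ?_ ?_ (t F)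
      · intro i hi
        have h3 := hFS i hi
        rw [hS, Finset.mem_filter] at h3
        exact h3.2
      · intro i hi i' hi'
        rw [hF, Finset.mem_filter] at hi hi'
        rw [hi.2, hi'.2]
  have hXl : ((X : ℝ) + T) ^ l ≤ 3 / 2 * (X : ℝ) ^ l := by
    refine le_trans (pow_le_pow_left₀ (by positivity) ?_ _) hX1
    push_cast
    have : (0 : ℝ) ≤ 2 * m := by positivity
    linarith
  have hZZcard : ∀ F ∈ Fam, ((ZZ F).card : ℝ) ≤ 2 * T * (ε' * (3 / 2 * (X : ℝ) ^ l)) := by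
    intro F hF
    have h3 : (ZZ F).card ≤ ∑ k ∈ Finset.Ico (X - (l + 1) * m) (X + T), ((Lev l k).filter
        (fun a => ∫ ω, (∏ i, s ω i ^ (2 * a i)) *
          MvPolynomial.eval (s ω) (B8_poly F (c F) (t F)) ∂ν = 0)).card := by
      refine le_trans (Finset.card_le_card ?_) Finset.card_biUnion_le
      intro a ha
      rw [hZZ, Finset.mem_filter, mem_Sh] at ha
      rw [Finset.mem_biUnion]
      refine ⟨∑ i, a i, ?_, ?_⟩
      · rw [Finset.mem_Ico]
        omega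
      · rw [Finset.mem_filter, mem_Lev]
        exact ⟨rfl, ha.2⟩
    calc ((ZZ F).card : ℝ) ≤ ((∑ k ∈ Finset.Ico (X - (l + 1) * m) (X + T), ((Lev l k).filter
        (fun a => ∫ ω, (∏ i, s ω i ^ (2 * a i)) *
          MvPolynomial.eval (s ω) (B8_poly F (c F) (t F)) ∂ν = 0)).card : ℕ) : ℝ) := by
          exact_mod_cast h3
      _ = ∑ k ∈ Finset.Ico (X - (l + 1) * m) (X + T), (((Lev l k).filter
        (fun a => ∫ ω, (∏ i, s ω i ^ (2 * a i)) *
          MvPolynomial.eval (s ω) (B8_poly F (c F) (t F)) ∂ν = 0)).card : ℝ) := by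
          push_cast; rfl
      _ ≤ ∑ k ∈ Finset.Ico (X - (l + 1) * m) (X + T), ε' * (3 / 2 * (X : ℝ) ^ l) := by
          refine Finset.sum_le_sum fun k hk => ?_
          rw [Finset.mem_Ico] at hk
          have h4 : XF F ≤ k := by
            have := Finset.le_sup (f := XF) hF
            omega
          refine (hXF F hF k h4).trans ?_
          gcongr
          refine le_trans (pow_le_pow_left₀ (by positivity) ?_ _) hXl
          exact_mod_cast hk.2.le
      _ ≤ 2 * T * (ε' * (3 / 2 * (X : ℝ) ^ l)) := by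
          rw [Finset.sum_const, Nat.card_Ico, nsmul_eq_mul]
          refine mul_le_mul_of_nonneg_right ?_ (by positivity)
          have h5 : X + T - (X - (l + 1) * m) ≤ 2 * T := by
            have : (l + 1) * m ≤ (l + 3) * m := Nat.mul_le_mul_right m (by omega)
            omega
          exact_mod_cast h5
  have hRcard : (R.card : ℝ) ≤ Fam.card * (2 * T * (ε' * (3 / 2 * (X : ℝ) ^ l))) := by
    have h5 : R.card ≤ ∑ F ∈ Fam, (ZZ F).card := by
      have h6 : R.image (fun q => (fun j => m * q j)) ⊆ Fam.biUnion ZZ := by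
        intro a ha
        rw [Finset.mem_image] at ha
        obtain ⟨q, hq, rfl⟩ := ha
        obtain ⟨F, hF, hq2⟩ := hRZZ q hq
        exact Finset.mem_biUnion.mpr ⟨F, hF, hq2⟩
      have h7 : (R.image (fun q => (fun j => m * q j))).card = R.card := by
        refine Finset.card_image_of_injective _ ?_
        intro a b hab
        funext j
        have := congrFun hab j
        simp only at this
        exact Nat.eq_of_mul_eq_mul_left (by omega) this
      rw [← h7]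
      exact le_trans (Finset.card_le_card h6) Finset.card_biUnion_le
    calc (R.card : ℝ) ≤ ((∑ F ∈ Fam, (ZZ F).card : ℕ) : ℝ) := by exact_mod_cast h5
      _ = ∑ F ∈ Fam, ((ZZ F).card : ℝ) := by push_cast; rfl
      _ ≤ ∑ F ∈ Fam, (2 * T * (ε' * (3 / 2 * (X : ℝ) ^ l))) :=
          Finset.sum_le_sum (fun F hF => hZZcard F hF)
      _ = Fam.card * (2 * T * (ε' * (3 / 2 * (X : ℝ) ^ l))) := by
          rw [Finset.sum_const, nsmul_eq_mul]
  have hWle : ∀ q ∈ Q, (W q).card ≤ C * (4 * m) ^ l + (if q ∈ R then m ^ (l + 1) else 0) := by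
    intro q hq
    by_cases hqR : q ∈ R
    · rw [if_pos hqR]
      have : (W q).card ≤ box.card := Finset.card_filter_le _ _
      have hb : box.card = m ^ (l + 1) := by
        rw [hbox, Fintype.card_piFinset]; simp
      omega
    · rw [if_neg hqR, add_zero]
      rw [hR, Finset.mem_filter, not_and] at hqR
      exact not_lt.mp (hqR hq)
  have hsumW : ∑ q ∈ Q, (W q).card ≤ Q.card * (C * (4 * m) ^ l) + R.card * m ^ (l + 1) := by
    refine le_trans (Finset.sum_le_sum hWle) ?_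
    rw [Finset.sum_add_distrib, Finset.sum_const, smul_eq_mul]
    refine Nat.add_le_add_left ?_ _
    rw [← Finset.sum_filter, Finset.sum_const, smul_eq_mul]
    refine Nat.mul_le_mul_right _ (Finset.card_le_card ?_)
    intro q hq
    exact (Finset.mem_filter.mp hq).2
  have hfin : (S.card : ℝ) ≤ (Q.card : ℝ) * (C * ((4 * m : ℕ) : ℝ) ^ l) +
      (R.card : ℝ) * (m : ℝ) ^ (l + 1) := by
    have := le_trans hcardS hsumW
    exact_mod_cast this
  have hQcard : Q.card ≤ (T / m + l + 3) * (X / m + T / m + 2) ^ l := by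
    have := Sh_card_le l (X / m - (l + 1)) (T / m + l + 3)
    have e : X / m - (l + 1) + (T / m + l + 3) = X / m + T / m + 2 := by omega
    rw [e] at this
    exact this
  have hQ2 : (Q.card : ℝ) * (m : ℝ) ^ (l + 1) ≤ 2 * T * (3 / 2 * (X : ℝ) ^ l) := by
    have h3 : Q.card * m ^ (l + 1) ≤ (2 * T) * (X + (T + 2 * m)) ^ l := by
      calc Q.card * m ^ (l + 1) ≤ ((T / m + l + 3) * (X / m + T / m + 2) ^ l) * m ^ (l + 1) :=
            Nat.mul_le_mul_right _ hQcard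
        _ = ((T / m + l + 3) * m) * ((X / m + T / m + 2) * m) ^ l := by
            rw [Nat.mul_pow]; ring
        _ ≤ (2 * T) * (X + (T + 2 * m)) ^ l := by
            have e1 : (T / m + l + 3) * m = T / m * m + (l + 3) * m := by ring
            have e2 : (X / m + T / m + 2) * m = X / m * m + (T / m * m + 2 * m) := by ring
            have e3 := Nat.div_mul_le_self T m
            have e4 := Nat.div_mul_le_self X m
            exact Nat.mul_le_mul (by omega) (Nat.pow_le_pow_left (by omega) _)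
    calc (Q.card : ℝ) * (m : ℝ) ^ (l + 1) = ((Q.card * m ^ (l + 1) : ℕ) : ℝ) := by push_cast; ring
      _ ≤ (((2 * T) * (X + (T + 2 * m)) ^ l : ℕ) : ℝ) := by exact_mod_cast h3
      _ = 2 * T * ((X : ℝ) + ((T + 2 * m : ℕ) : ℝ)) ^ l := by push_cast; ring
      _ ≤ 2 * T * (3 / 2 * (X : ℝ) ^ l) := by gcongr
  have hA : (Q.card : ℝ) * (C * ((4 * m : ℕ) : ℝ) ^ l) ≤ 1 / 2 * δ * (T * (X : ℝ) ^ l) := by
    calc (Q.card : ℝ) * (C * ((4 * m : ℕ) : ℝ) ^ l)
        ≤ (Q.card : ℝ) * (δ / 3 / 2 * (m : ℝ) ^ (l + 1)) := by gcongr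
      _ = δ / 3 / 2 * ((Q.card : ℝ) * (m : ℝ) ^ (l + 1)) := by ring
      _ ≤ δ / 3 / 2 * (2 * T * (3 / 2 * (X : ℝ) ^ l)) := by gcongr
      _ = 1 / 2 * δ * (T * (X : ℝ) ^ l) := by ring
  have hB : (R.card : ℝ) * (m : ℝ) ^ (l + 1) ≤ 1 / 2 * δ * (T * (X : ℝ) ^ l) := by
    calc (R.card : ℝ) * (m : ℝ) ^ (l + 1)
        ≤ (Fam.card * (2 * T * (ε' * (3 / 2 * (X : ℝ) ^ l)))) * (m : ℝ) ^ (l + 1) := by gcongr
      _ = (Fam.card / (Fam.card + 1)) * (1 / 2 * δ * (T * (X : ℝ) ^ l)) := by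
          rw [hε']
          field_simp
          ring
      _ ≤ 1 * (1 / 2 * δ * (T * (X : ℝ) ^ l)) := by
          gcongr
          rw [div_le_one (by positivity)]
          linarith
      _ = 1 / 2 * δ * (T * (X : ℝ) ^ l) := one_mul _
  linarith

open Classical in
/-- all shells of length at least `T₀`. -/
theorem shells (l : ℕ) {Ω : Type} [MeasurableSpace Ω] (ν : Measure Ω)
    [IsFiniteMeasure ν]
    (s : Ω → Fin (l + 1) → ℝ) (hs : Measurable s) (h0 : ∀ᵐ ω ∂ν, ∀ i, 0 ≤ s ω i)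
    (h1 : ∀ᵐ ω ∂ν, ∑ i, s ω i = 1)
    (hfull : ∀ p : Fin (l + 1) → ℝ, (∀ i, 0 < p i) → ∑ i, p i = 1 → ∀ ρ : ℝ, 0 < ρ →
      0 < ν {ω | dist (s ω) p < ρ})
    (δ : ℝ) (hδ : 0 < δ) :
    ∃ m : ℕ → ℕ, ∀ Cm : ℕ, ∃ T₀ : ℕ, ∀ T : ℕ, T₀ ≤ T → ∀ X : ℕ,
      ∀ (p : ℂ) (Z : Set ℂ), (∃ C, C ≤ Cm ∧ Sep ν s p Z (m C) C) →
      (((Sh l X T).filter
        (fun a => p ^ (2 * ∑ i, a i) * ((∫ ω, ∏ i, s ω i ^ (2 * a i) ∂ν : ℝ) : ℂ) ∈ Z)).card : ℝ)
          ≤ δ * (Sh l X T).card := by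
  have hll : (0 : ℝ) < (l : ℝ) ^ l := by
    rcases Nat.eq_zero_or_pos l with rfl | hl
    · simp
    · positivity
  have hcore : ∀ C : ℕ, _ := fun C => core l ν s hs h0 h1 hfull C (δ / 2 / (l : ℝ) ^ l)
    (by positivity)
  choose m T₀ hT₀ using hcore
  choose! XT hXT using hT₀
  refine ⟨m, fun Cm => ?_⟩
  set T₁ : ℕ := max ((Finset.range (Cm + 1)).sup T₀) 1 with hT₁
  set X₁ : ℕ := (Finset.range (Cm + 1)).sup (fun C => (Finset.range (2 * T₁)).sup (XT C)) with hX₁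
  refine ⟨T₁ + X₁ + ⌈((Sh l 0 X₁).card : ℝ) / (δ / 2)⌉₊, fun T hT X p Z hex => ?_⟩
  obtain ⟨C, hC2, hG⟩ := hex
  have hDmem : C ∈ Finset.range (Cm + 1) := Finset.mem_range.2 (by omega)
  refine shell_all l T₁ X₁ δ hδ _ ?_ T hT X
  refine shell_extend l T₁ X₁ (lt_of_lt_of_le Nat.one_pos (le_max_right _ _)) (δ / 2) _ ?_
  intro T' hT'1 hT'2 X' hX'
  have h2 := hXT C T' ((Finset.le_sup (f := T₀) hDmem).trans ((le_max_left _ _).trans hT'1)) X'
    ((Finset.le_sup (f := XT C) (Finset.mem_range.2 hT'2)).trans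
      ((Finset.le_sup (f := fun C => (Finset.range (2 * T₁)).sup (XT C)) hDmem).trans hX')) p Z hG
  refine h2.trans ?_
  have h3 : (T' : ℝ) * (X' : ℝ) ^ l ≤ (l : ℝ) ^ l * (Sh l X' T').card := by
    exact_mod_cast le_Sh_card l X' T'
  calc δ / 2 / (l : ℝ) ^ l * (T' * (X' : ℝ) ^ l)
      ≤ δ / 2 / (l : ℝ) ^ l * ((l : ℝ) ^ l * (Sh l X' T').card) := by gcongr
    _ = δ / 2 * (Sh l X' T').card := by field_simp

/-- congruence classes. -/
theorem sep_of_good {l : ℕ} {Ω : Type} [MeasurableSpace Ω] (ν : Measure Ω)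
    [IsFiniteMeasure ν]
    (s : Ω → Fin (l + 1) → ℝ) (hs : Measurable s) (h0 : ∀ᵐ ω ∂ν, ∀ i, 0 ≤ s ω i)
    (h1 : ∀ᵐ ω ∂ν, ∑ i, s ω i = 1)
    (p : ℂ) (hp0 : p ≠ 0) (Z : Set ℂ) (hZ0 : (0 : ℂ) ∈ Z)
    (hZq : ∀ (q : ℚ), ∀ z ∈ Z, (q : ℂ) * z ∈ Z) (m D : ℕ) (hD : 1 ≤ D)
    (hG : Good ((p ^ 2)⁻¹) Z (eD l m D)) : Sep ν s p Z m D := by
  refine ⟨fun k => ⟨k % D, Nat.mod_lt _ hD⟩, fun F c a hFm hc hF hcol t => ?_⟩
  refine window ν s hs h0 h1 p hp0 Z hZ0 hZq m D hD hG F hFm c hc a hF (fun i hi i' hi' => ?_) t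
  have := congrArg Fin.val (hcol i hi i' hi')
  exact this

/-- colourings for subspaces. -/
theorem sep_of_colour {l : ℕ} {Ω : Type} [MeasurableSpace Ω] (ν : Measure Ω)
    [IsFiniteMeasure ν]
    (s : Ω → Fin (l + 1) → ℝ) (hs : Measurable s) (h0 : ∀ᵐ ω ∂ν, ∀ i, 0 ≤ s ω i)
    (h1 : ∀ᵐ ω ∂ν, ∑ i, s ω i = 1)
    (K : Type) [Field K] [Algebra K ℂ] (p : ℂ) (hp0 : p ≠ 0) (V : Submodule K ℂ)
    {C : ℕ} (χ : ℕ → Fin C)
    (hχ : ∀ (S : Finset ℕ) (z : ℕ → ℂ),
      (∀ i ∈ S, ∀ j ∈ S, χ i = χ j) → (∀ j ∈ S, z j ∈ V) →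
        ∑ j ∈ S, ((p ^ 2)⁻¹) ^ j * z j = 0 → ∀ j ∈ S, z j = 0) (m : ℕ) :
    Sep ν s p (V : Set ℂ) m C := by
  classical
  refine ⟨χ, fun F c a _ hc hF hcol t => ?_⟩
  exact B8_window ν s hs h0 h1 K p hp0 V χ hχ F c hc a hF hcol t

end Pool.Agent.LibPR29
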