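import Mathlib

set_option autoImplicit false

namespace Pool.Agent.LibPR29

open Polynomial

/-- `z` is a root of a monic polynomial of degree `d` whose other coefficients are combinations of the `w p` with
coefficients in the subfield `K`. -/
def RootOver {E : Type} [Field E] (K : Subfield E) {v : ℕ} (w : Fin v → E) (d : ℕ) : Set E :=
  {z | ∃ c : Fin d → Fin v → E, (∀ i p, c i p ∈ K) ∧
    z ^ d + ∑ i : Fin d, (∑ p, c i p * w p) * z ^ (i : ℕ) = 0}

/-- The relation `∑ x ^ (e k) r k = 0` with all `r k` in `Z` splits into its homogeneous parts. -/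
def Good {E : Type} [Field E] (x : E) (Z : Set E) {ι : Type} [Fintype ι] (e : ι → ℕ) : Prop :=
  ∀ r : ι → E, (∀ k, r k ∈ Z) → ∑ k, x ^ e k * r k = 0 → ∀ j, ∑ k with e k = j, r k = 0

/-- The integral closure of the space `W`: the roots of the monic polynomials `T ^ k + a₁ T ^ (k-1) + ⋯ + a_k`, `a_i ∈ W ^ i`. -/
def IntOver {K E : Type} [Field K] [Field E] [Algebra K E] (W : Submodule K E) : Set E :=
  {z | ∃ P : E[X], P.Monic ∧ (∀ i < P.natDegree, P.coeff i ∈ W ^ (P.natDegree - i)) ∧ P.eval z = 0}

/-- the level of a point of the window of length `m`, rounded down to a multiple of `D`. -/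
def eD (l m D : ℕ) (i : Fin (l + 1) → Fin m) : ℕ := D * ((∑ j, (i j : ℕ)) / D)

theorem dvd_eD (l m D : ℕ) (i : Fin (l + 1) → Fin m) : D ∣ eD l m D i := Dvd.intro _ rfl

end Pool.Agent.LibPR29
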