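import Pool.Agent.LibPR29.Defs

set_option autoImplicit false

namespace Pool.Agent.LibPR29

open Polynomial

/-- P2a: a common denominator. -/
theorem denom {K E : Type} [Field K] [Field E] [Algebra K E] (K₁ : Subfield E)
    (hK : ∀ c : K, algebraMap K E c ∈ K₁) (y : E)
    (h : Algebra.IsAlgebraic (Algebra.adjoin K₁ {y}) E) (W : Submodule K E)
    (hW : FiniteDimensional K W) :
    ∃ g ∈ Algebra.adjoin K₁ {y}, g ≠ 0 ∧ ∀ z ∈ IntOver W, IsIntegral (Algebra.adjoin K₁ {y}) (g * z) := by
  classical
  set R := Algebra.adjoin K₁ ({y} : Set E) with hR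
  have hKint : ∀ c : K, IsIntegral R (algebraMap K E c) := by
    intro c
    have hmem : algebraMap K E c ∈ R := R.algebraMap_mem ⟨algebraMap K E c, hK c⟩
    exact isIntegral_algebraMap (R := R) (A := E) (x := ⟨algebraMap K E c, hmem⟩)
  obtain ⟨t, ht⟩ := (Submodule.fg_iff_finiteDimensional W).2 hW
  obtain ⟨g, hg0, hg⟩ := Algebra.IsAlgebraic.exists_integral_multiples R t
  have hgint : IsIntegral R (g : E) := isIntegral_algebraMap (R := R) (A := E) (x := g)
  have hW1 : ∀ w ∈ W, IsIntegral R ((g : E) * w) := by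
    intro w hw
    rw [← ht] at hw
    induction hw using Submodule.span_induction with
    | mem x hx => exact hg x hx
    | zero => rw [mul_zero]; exact isIntegral_zero
    | add a b _ _ ha hb => rw [mul_add]; exact ha.add hb
    | smul c a _ ha =>
      rw [Algebra.smul_def, mul_left_comm]
      exact (hKint c).mul ha
  have hWn : ∀ n : ℕ, ∀ u ∈ W ^ n, IsIntegral R ((g : E) ^ n * u) := by
    intro n
    induction n with
    | zero =>
      intro u hu
      rw [pow_zero, Submodule.mem_one] at hu
      obtain ⟨c, rfl⟩ := hu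
      rw [pow_zero, one_mul]
      exact hKint c
    | succ n ih =>
      intro u hu
      rw [pow_succ] at hu
      refine Submodule.mul_induction_on hu (fun a ha b hb => ?_) (fun a b ha hb => ?_)
      · have e : (g : E) ^ (n + 1) * (a * b) = ((g : E) ^ n * a) * ((g : E) * b) := by ring
        rw [e]
        exact (ih a ha).mul (hW1 b hb)
      · rw [mul_add]; exact ha.add hb
  refine ⟨(g : E), g.2, fun h0 => hg0 (Subtype.ext h0), fun z hz => ?_⟩
  obtain ⟨P, hPm, hPc, hPz⟩ := hz
  set A := integralClosure R E with hA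
  set Q := P.scaleRoots (g : E) with hQ
  have hQm : Q.Monic := (Polynomial.monic_scaleRoots_iff _).2 hPm
  have hQz : Q.eval ((g : E) * z) = 0 := by
    have := Polynomial.scaleRoots_eval₂_eq_zero (p := P) (RingHom.id E) (r := z) (s := (g : E))
      (by rw [Polynomial.eval₂_id]; exact hPz)
    rwa [Polynomial.eval₂_id, RingHom.id_apply] at this
  have hQc : ∀ i, IsIntegral R (Q.coeff i) := by
    intro i
    rw [hQ, Polynomial.coeff_scaleRoots]
    rcases lt_trichotomy i P.natDegree with hi | hi | hi
    · rw [mul_comm]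
      exact hWn _ _ (hPc i hi)
    · rw [hi, Polynomial.coeff_natDegree, hPm.leadingCoeff, Nat.sub_self, pow_zero, mul_one]
      exact isIntegral_one
    · rw [Polynomial.coeff_eq_zero_of_natDegree_lt hi, zero_mul]
      exact isIntegral_zero
  have hlift : Q ∈ Polynomial.lifts (algebraMap A E) := by
    rw [Polynomial.lifts_iff_coeff_lifts]
    intro i
    exact ⟨⟨Q.coeff i, hQc i⟩, rfl⟩
  obtain ⟨q, hq1, -, hq3⟩ := Polynomial.lifts_and_natDegree_eq_and_monic hlift hQm
  have hint : IsIntegral A ((g : E) * z) := by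
    refine ⟨q, hq3, ?_⟩
    rw [← Polynomial.eval_map, hq1]
    exact hQz
  exact isIntegral_trans _ hint

end Pool.Agent.LibPR29
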