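import Pool.Agent.LibPR29.Defs

set_option autoImplicit false

/-!
PLAN for `norm_arg` (`K₁[x]`, `K₁[x⁻¹]` are polynomial rings with the same fraction field `L = K₁(x)`).
1. Helper: if `y` is transcendental over `K₁`, `L : IntermediateField K₁ E` with `L = IntermediateField.adjoin K₁ {y}` and
   `u : E` is integral over `R = Algebra.adjoin K₁ {y}` and `M : IntermediateField L E` finite over `L` contains `u`, then
   `Algebra.norm L (⟨u, _⟩ : M) ∈ R` (as an element of `E`): `Algebra.isIntegral_norm` gives that the norm is integral over `R`,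
   and `R` is integrally closed (it is isomorphic to `K₁[X]` by `AlgEquiv.ofInjective`/`Algebra.adjoin_singleton_eq_range_aeval`;
   `IsIntegrallyClosed.of_equiv`) with fraction field `L` (instance `IsFractionRing (Algebra.adjoin F S) (IntermediateField.adjoin F S)`).
   (Or use `minpoly.isIntegrallyClosed_eq_field_fractions` and the constant coefficient of the minimal polynomial.)
2. Let `u ≠ 0`, `M = L(u)`, `k = [M : L] ≥ 1`, `c = N(u) ≠ 0`. With `f := g ^ k * c ∈ K₁[x]` and
   `f' := x ^ (D k) * g' ^ k * c ∈ K₁[x⁻¹]` (norms of `g u` and of `x ^ D g' u`; the norm of an element of `L` is its `k`-th power)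
   we get `x ^ (D k) * g' ^ k * f = g ^ k * f'`.
3. Write `g = G(x)`, `f = F(x)`, `g' = G'(x⁻¹)`, `f' = F'(x⁻¹)` with polynomials over `K₁`, `b = deg G'`, `n = deg F'`; multiply by
   `x ^ (b k + n)`: `x ^ (D k + n) * (x ^ b g') ^ k * f = x ^ (b k) * g ^ k * (x ^ n f')`, and `x ^ b g' = (reverse G')(x)`,
   `x ^ n f' = (reverse F')(x)` (`Polynomial.eval₂_reverse_mul_pow`), so by transcendence
   `X ^ (D k + n) * (reverse G') ^ k * F = X ^ (b k) * G ^ k * reverse F'`; degrees: the left side has degree `≥ D k + n`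
   (`F ≠ 0`, `reverse G' ≠ 0`), the right side `≤ b k + k deg G + n`. So `D ≤ b + deg G`, and `D₀ = deg G + b + 1` works
   (it depends only on `g`, `g'`).
-/

namespace Pool.Agent.LibPR29

open Polynomial

theorem F1c_closed {E : Type} [Field E] (K₁ : Subfield E) (y : E) (hy : Transcendental K₁ y) :
    IsIntegrallyClosed (Algebra.adjoin K₁ {y}) := by
  have hinj : Function.Injective (aeval y : K₁[X] →ₐ[K₁] E) := transcendental_iff_injective.1 hy
  have e1 : K₁[X] ≃ₐ[K₁] (aeval y : K₁[X] →ₐ[K₁] E).range := AlgEquiv.ofInjective _ hinj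
  have e2 : Algebra.adjoin K₁ {y} = (aeval y : K₁[X] →ₐ[K₁] E).range :=
    Algebra.adjoin_singleton_eq_range_aeval K₁ y
  exact IsIntegrallyClosed.of_equiv (e1.trans (Subalgebra.equivOfEq _ _ e2.symm)).toRingEquiv

open scoped IntermediateField.algebraAdjoinAdjoin in
theorem F1c_norm {E : Type} [Field E] (K₁ : Subfield E) (y : E) (hy : Transcendental K₁ y)
    (L : IntermediateField K₁ E) (hL : IntermediateField.adjoin K₁ {y} = L)
    (M : IntermediateField L E) (w : M) (hw : IsIntegral (Algebra.adjoin K₁ {y}) (w : E)) :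
    ((Algebra.norm L w : L) : E) ∈ Algebra.adjoin K₁ {y} := by
  subst hL
  have hc := F1c_closed K₁ y hy
  let _ : Algebra (Algebra.adjoin K₁ {y}) M :=
    ((algebraMap (IntermediateField.adjoin K₁ {y}) M).comp
      (algebraMap (Algebra.adjoin K₁ {y}) (IntermediateField.adjoin K₁ {y}))).toAlgebra
  have _ : IsScalarTower (Algebra.adjoin K₁ {y}) (IntermediateField.adjoin K₁ {y}) M :=
    IsScalarTower.of_algebraMap_eq' rfl
  have _ : IsScalarTower (Algebra.adjoin K₁ {y}) M E :=
    IsScalarTower.of_algebraMap_eq' rfl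
  have h1 : IsIntegral (Algebra.adjoin K₁ {y}) w :=
    (isIntegral_algebraMap_iff (algebraMap M E).injective).1 hw
  have h2 := Algebra.isIntegral_norm (R := Algebra.adjoin K₁ {y})
    (IntermediateField.adjoin K₁ {y}) h1
  obtain ⟨r, hr⟩ := IsIntegrallyClosed.isIntegral_iff.1 h2
  rw [← hr]
  exact r.2

theorem F1c_rev {E : Type} [Field E] (K₁ : Subfield E) (x : E) (hx0 : x ≠ 0) (P : K₁[X]) :
    x ^ P.natDegree * aeval x⁻¹ P = aeval x P.reverse := by
  have hx1 : x⁻¹ ≠ 0 := inv_ne_zero hx0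
  let _ : Invertible x⁻¹ := invertibleOfNonzero hx1
  have h1 := eval₂_reverse_mul_pow (algebraMap K₁ E) x⁻¹ P
  have h2 : ⅟(x⁻¹) = x := by
    rw [invOf_eq_inv, inv_inv]
  rw [h2] at h1
  rw [aeval_def, aeval_def, ← h1, ← mul_assoc, mul_comm (x ^ P.natDegree), mul_assoc, inv_pow,
    mul_inv_cancel₀ (pow_ne_zero _ hx0), mul_one]

theorem F1c_deg {E : Type} [Field E] (K₁ : Subfield E) (x : E) (hx : Transcendental K₁ x)
    (G G' F F' : K₁[X]) (hG' : G' ≠ 0) (hF : F ≠ 0) (D k : ℕ) (hk : 0 < k)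
    (h : x ^ (D * k) * (aeval x⁻¹ G') ^ k * aeval x F = (aeval x G) ^ k * aeval x⁻¹ F') :
    D ≤ G'.natDegree + G.natDegree := by
  have hx0 : x ≠ 0 := by
    rintro rfl
    exact hx (isAlgebraic_zero)
  have h1 := F1c_rev K₁ x hx0 G'
  have h2 := F1c_rev K₁ x hx0 F'
  have h3 : aeval x (X ^ (D * k + F'.natDegree) * G'.reverse ^ k * F) =
      aeval x (X ^ (G'.natDegree * k) * G ^ k * F'.reverse) := by
    simp only [map_mul, map_pow, aeval_X]
    rw [← h1, ← h2]
    calc x ^ (D * k + F'.natDegree) * (x ^ G'.natDegree * aeval x⁻¹ G') ^ k * aeval x F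
        = x ^ F'.natDegree * (x ^ G'.natDegree) ^ k *
          (x ^ (D * k) * (aeval x⁻¹ G') ^ k * aeval x F) := by
          rw [pow_add, mul_pow]
          ring
      _ = x ^ F'.natDegree * (x ^ G'.natDegree) ^ k * ((aeval x G) ^ k * aeval x⁻¹ F') := by
          rw [h]
      _ = _ := by
          rw [← pow_mul]
          ring
  have h4 := transcendental_iff_injective.1 hx h3
  have h5 := congrArg natDegree h4
  have hR : G'.reverse ≠ 0 := by
    rwa [Ne, reverse_eq_zero]
  have h6 : (X ^ (D * k + F'.natDegree) * G'.reverse ^ k * F : K₁[X]).natDegree =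
      D * k + F'.natDegree + k * G'.reverse.natDegree + F.natDegree := by
    rw [natDegree_mul (mul_ne_zero (pow_ne_zero _ X_ne_zero) (pow_ne_zero _ hR)) hF,
      natDegree_mul (pow_ne_zero _ X_ne_zero) (pow_ne_zero _ hR), natDegree_X_pow,
      natDegree_pow]
  have h7 : (X ^ (G'.natDegree * k) * G ^ k * F'.reverse : K₁[X]).natDegree ≤
      G'.natDegree * k + k * G.natDegree + F'.natDegree := by
    refine natDegree_mul_le.trans ?_
    refine add_le_add (natDegree_mul_le.trans ?_) (reverse_natDegree_le F')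
    refine add_le_add (natDegree_X_pow_le _) natDegree_pow_le
  rw [← h5, h6] at h7
  have h8 : D * k ≤ (G'.natDegree + G.natDegree) * k := by
    nlinarith [Nat.zero_le (k * G'.reverse.natDegree), Nat.zero_le F.natDegree]
  exact Nat.le_of_mul_le_mul_right h8 hk

/-- P2b: integral at all finite places and small at infinity. -/
theorem norm_arg {E : Type} [Field E] (K₁ : Subfield E) (x : E) (hx : Transcendental K₁ x)
    (h : Algebra.IsAlgebraic (Algebra.adjoin K₁ {x}) E)
    (g g' : E) (hg : g ∈ Algebra.adjoin K₁ {x}) (hg0 : g ≠ 0)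
    (hg' : g' ∈ Algebra.adjoin K₁ {x⁻¹}) (hg'0 : g' ≠ 0) :
    ∃ D₀ : ℕ, ∀ D, D₀ ≤ D → ∀ u : E, IsIntegral (Algebra.adjoin K₁ {x}) (g * u) →
      IsIntegral (Algebra.adjoin K₁ {x⁻¹}) (x ^ D * (g' * u)) → u = 0 := by
  have hx0 : x ≠ 0 := by
    rintro rfl
    exact hx (isAlgebraic_zero)
  have hx' : Transcendental K₁ x⁻¹ := by
    intro h1
    exact hx (by simpa using h1.inv)
  rw [Algebra.adjoin_singleton_eq_range_aeval] at hg hg'
  obtain ⟨G, hG⟩ := hg
  obtain ⟨G', hG'⟩ := hg'
  change aeval x G = g at hG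
  change aeval x⁻¹ G' = g' at hG'
  refine ⟨G'.natDegree + G.natDegree + 1, fun D hD u hu hu' => ?_⟩
  by_contra hu0
  have hL1 : IntermediateField.adjoin K₁ {x⁻¹} = IntermediateField.adjoin K₁ {x} := by
    refine le_antisymm ?_ ?_
    · rw [IntermediateField.adjoin_simple_le_iff]
      exact inv_mem (IntermediateField.mem_adjoin_simple_self K₁ x)
    · rw [IntermediateField.adjoin_simple_le_iff]
      have h1 := inv_mem (IntermediateField.mem_adjoin_simple_self K₁ x⁻¹)
      rwa [inv_inv] at h1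
  obtain ⟨L, hL⟩ : ∃ L : IntermediateField K₁ E, IntermediateField.adjoin K₁ {x} = L := ⟨_, rfl⟩
  have hxL : x ∈ L := by
    rw [← hL]
    exact IntermediateField.mem_adjoin_simple_self K₁ x
  have hsub : ∀ P : K₁[X], aeval x P ∈ L := fun P => by
    have h1 : aeval x P = ((aeval (⟨x, hxL⟩ : L) P : L) : E) := by
      have := aeval_algebraMap_apply E (⟨x, hxL⟩ : L) P
      exact this
    rw [h1]
    exact Subtype.coe_prop _
  have hsub' : ∀ P : K₁[X], aeval x⁻¹ P ∈ L := fun P => by
    have hxL' : x⁻¹ ∈ L := inv_mem hxL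
    have h1 : aeval x⁻¹ P = ((aeval (⟨x⁻¹, hxL'⟩ : L) P : L) : E) := by
      have := aeval_algebraMap_apply E (⟨x⁻¹, hxL'⟩ : L) P
      exact this
    rw [h1]
    exact Subtype.coe_prop _
  have hal : IsIntegral L u := by
    obtain ⟨P, hP0, hP⟩ := h.isAlgebraic u
    have hinc : ∀ a ∈ Algebra.adjoin K₁ {x}, a ∈ L := by
      intro a ha
      rw [Algebra.adjoin_singleton_eq_range_aeval] at ha
      obtain ⟨Q, hQ⟩ := ha
      change aeval x Q = a at hQ
      rw [← hQ]
      exact hsub Q
    let φ : Algebra.adjoin K₁ {x} →+* L := 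
      { toFun := fun a => ⟨a, hinc a a.2⟩
        map_one' := rfl
        map_mul' := fun _ _ => rfl
        map_zero' := rfl
        map_add' := fun _ _ => rfl }
    have hφ : Function.Injective φ := fun a b hab => by
      have h1 := congrArg (fun z : L => (z : E)) hab
      exact Subtype.ext h1
    have h1 : IsAlgebraic L u := by
      refine ⟨P.map φ, (Polynomial.map_ne_zero_iff hφ).2 hP0, ?_⟩
      rw [aeval_def, eval₂_map]
      exact hP
    exact h1.isIntegral
  let M : IntermediateField L E := IntermediateField.adjoin L {u}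
  have hfin : FiniteDimensional L M := IntermediateField.adjoin.finiteDimensional hal
  have hfree : Module.Free L M := Module.Free.of_divisionRing L M
  let v : M := ⟨u, IntermediateField.mem_adjoin_simple_self L u⟩
  have hv0 : v ≠ 0 := fun h1 => hu0 (congrArg (fun z : M => (z : E)) h1)
  have hc0 : Algebra.norm L v ≠ 0 := Algebra.norm_ne_zero_iff.2 hv0
  set k := Module.finrank L M with hk
  have hkpos : 0 < k := Module.finrank_pos
  have key : ∀ a : L, ((Algebra.norm L (algebraMap L M a * v) : L) : E) =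
      (a : E) ^ k * ((Algebra.norm L v : L) : E) := by
    intro a
    rw [map_mul, Algebra.norm_algebraMap]
    rfl
  have hgL : g ∈ L := by
    rw [← hG]
    exact hsub G
  have hgL' : x ^ D * g' ∈ L := by
    rw [← hG']
    exact mul_mem (pow_mem hxL D) (hsub' G')
  have h1 := F1c_norm K₁ x hx L hL M (algebraMap L M ⟨g, hgL⟩ * v) hu
  have h2 := F1c_norm K₁ x⁻¹ hx' L (hL1.trans hL) M (algebraMap L M ⟨x ^ D * g', hgL'⟩ * v) (by
    have h3 : ((algebraMap L M ⟨x ^ D * g', hgL'⟩ * v : M) : E) = x ^ D * (g' * u) := by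
      change x ^ D * g' * u = _
      rw [mul_assoc]
    rw [h3]
    exact hu')
  rw [key] at h1 h2
  rw [Algebra.adjoin_singleton_eq_range_aeval] at h1 h2
  obtain ⟨F, hF⟩ := h1
  obtain ⟨F', hF'⟩ := h2
  change aeval x F = g ^ k * _ at hF
  change aeval x⁻¹ F' = (x ^ D * g') ^ k * _ at hF'
  have hG'0 : G' ≠ 0 := by
    rintro rfl
    rw [map_zero] at hG'
    exact hg'0 hG'.symm
  have hF0 : F ≠ 0 := by
    rintro rfl
    rw [map_zero] at hF
    have h3 : ((Algebra.norm L v : L) : E) ≠ 0 := fun h4 => hc0 (Subtype.ext h4)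
    exact mul_ne_zero (pow_ne_zero _ hg0) h3 hF.symm
  have h3 := F1c_deg K₁ x hx G G' F F' hG'0 hF0 D k hkpos (by
    rw [hG, hG', hF, hF', mul_pow, ← pow_mul]
    ring)
  omega

end Pool.Agent.LibPR29
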