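import Pool.Agent.LibPR29.F1a
import Pool.Agent.LibPR29.F1b
import Pool.Agent.LibPR29.F1c

set_option autoImplicit false

namespace Pool.Agent.LibPR29

open Polynomial

/-- P2: the homogeneous parts separate. -/
theorem good_fixed {K E : Type} [Field K] [Field E] [Algebra K E] (x : E) (hx : Transcendental K x)
    (W : Submodule K E) (hW : FiniteDimensional K W) :
    ∃ D₀ : ℕ, ∀ D, D₀ ≤ D → ∀ (ι : Type) [Fintype ι] (e : ι → ℕ), (∀ k, D ∣ e k) →
      Good x (IntOver W) e := by
  classical
  obtain ⟨K₁, hK, hx1, halg⟩ := exists_big x hx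
  have halg' := alg_inv K₁ x halg
  obtain ⟨g, hg, hg0, hgI⟩ := denom K₁ hK x halg W hW
  obtain ⟨g', hg', hg'0, hg'I⟩ := denom K₁ hK x⁻¹ halg' W hW
  obtain ⟨D₀, hD₀⟩ := norm_arg K₁ x hx1 halg g g' hg hg0 hg' hg'0
  have hx0 : x ≠ 0 := by
    rintro rfl
    exact hx isAlgebraic_zero
  refine ⟨D₀, fun D hD ι _ e he r hr hsum => ?_⟩
  set z : ℕ → E := fun j => ∑ k with e k = j, r k with hz
  by_contra hcon
  push Not at hcon
  obtain ⟨j₁, hj₁⟩ := hcon
  -- the largest `J` with `z J ≠ 0`
  set S : Finset ℕ := (Finset.univ.image e).filter (fun j => z j ≠ 0) with hS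
  have hSne : S.Nonempty := by
    refine ⟨j₁, ?_⟩
    rw [hS, Finset.mem_filter]
    refine ⟨?_, hj₁⟩
    rw [Finset.mem_image]
    by_contra hno
    apply hj₁
    refine Finset.sum_eq_zero (fun k hk => ?_)
    rw [Finset.mem_filter] at hk
    exact absurd ⟨k, Finset.mem_univ _, hk.2⟩ hno
  set J := S.max' hSne with hJ
  have hJS : J ∈ S := S.max'_mem hSne
  have hJz : z J ≠ 0 := (Finset.mem_filter.1 hJS).2
  obtain ⟨kJ, -, hkJ⟩ := Finset.mem_image.1 (Finset.mem_filter.1 hJS).1
  have hDJ : D ∣ J := by rw [← hkJ]; exact he kJ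
  have hbig : ∀ j ∈ Finset.univ.image e, J < j → z j = 0 := by
    intro j hj hjJ
    by_contra hne
    have : j ∈ S := Finset.mem_filter.2 ⟨hj, hne⟩
    exact absurd (S.le_max' j this) (not_le.2 hjJ)
  have hgroup : ∑ j ∈ Finset.univ.image e, x ^ j * z j = 0 := by
    rw [← hsum]
    rw [← Finset.sum_fiberwise_of_maps_to (g := e) (t := Finset.univ.image e)
      (fun k _ => Finset.mem_image_of_mem e (Finset.mem_univ k))]
    refine Finset.sum_congr rfl (fun j _ => ?_)
    rw [hz]
    simp only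
    rw [Finset.mul_sum]
    refine Finset.sum_congr rfl (fun k hk => ?_)
    rw [(Finset.mem_filter.1 hk).2]
  have hlow : x ^ J * z J + ∑ j ∈ (Finset.univ.image e).filter (fun j => j < J), x ^ j * z j = 0 := by
    rw [← hgroup]
    have h1 : ∑ j ∈ Finset.univ.image e, x ^ j * z j =
        ∑ j ∈ (Finset.univ.image e).filter (fun j => j ≤ J), x ^ j * z j := by
      rw [Finset.sum_filter]
      refine Finset.sum_congr rfl (fun j hj => ?_)
      by_cases h : j ≤ J
      · rw [if_pos h]
      · rw [if_neg h, hbig j hj (not_le.1 h), mul_zero]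
    have h2 : (Finset.univ.image e).filter (fun j => j ≤ J) =
        insert J ((Finset.univ.image e).filter (fun j => j < J)) := by
      ext j
      simp only [Finset.mem_filter, Finset.mem_insert]
      constructor
      · rintro ⟨h3, h4⟩
        rcases h4.eq_or_lt with h5 | h5
        · exact Or.inl h5
        · exact Or.inr ⟨h3, h5⟩
      · rintro (h3 | ⟨h3, h4⟩)
        · rw [h3]
          exact ⟨(Finset.mem_filter.1 hJS).1, le_rfl⟩
        · exact ⟨h3, h4.le⟩
    rw [h1, h2, Finset.sum_insert (by simp)]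
  apply hJz
  refine hD₀ D hD (z J) ?_ ?_
  · rw [hz]
    simp only
    rw [Finset.mul_sum]
    exact IsIntegral.sum _ (fun k _ => hgI _ (hr k))
  · have hkey : x ^ D * (g' * z J) =
        -∑ j ∈ (Finset.univ.image e).filter (fun j => j < J), (x⁻¹) ^ (J - j - D) * (g' * z j) := by
      have h3 : x ^ J * (x ^ D * (g' * z J)) = x ^ D * (g' * (x ^ J * z J)) := by ring
      have h4 : x ^ J * z J = -∑ j ∈ (Finset.univ.image e).filter (fun j => j < J), x ^ j * z j :=
        eq_neg_of_add_eq_zero_left hlow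
      refine mul_left_cancel₀ (pow_ne_zero J hx0) ?_
      rw [h3, h4, mul_neg, mul_neg, mul_neg, Finset.mul_sum, Finset.mul_sum, Finset.mul_sum]
      refine congrArg Neg.neg (Finset.sum_congr rfl (fun j hj => ?_))
      have hjJ : j < J := (Finset.mem_filter.1 hj).2
      obtain ⟨k, -, hk⟩ := Finset.mem_image.1 (Finset.mem_filter.1 hj).1
      have hDj : D ∣ j := by rw [← hk]; exact he k
      have hle : D ≤ J - j := Nat.le_of_dvd (by omega) (Nat.dvd_sub hDJ hDj)
      have h5 : x ^ J * (x⁻¹) ^ (J - j - D) = x ^ (D + j) := by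
        rw [inv_pow, mul_inv_eq_iff_eq_mul₀ (pow_ne_zero _ hx0), ← pow_add]
        congr 1
        omega
      calc x ^ D * (g' * (x ^ j * z j)) = x ^ (D + j) * (g' * z j) := by rw [pow_add]; ring
        _ = x ^ J * ((x⁻¹) ^ (J - j - D) * (g' * z j)) := by rw [← h5]; ring
    rw [hkey]
    refine IsIntegral.neg (IsIntegral.sum _ (fun j _ => ?_))
    have h6 : IsIntegral (Algebra.adjoin K₁ {x⁻¹}) (g' * z j) := by
      rw [hz]
      simp only
      rw [Finset.mul_sum]
      exact IsIntegral.sum _ (fun k _ => hg'I _ (hr k))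
    have h7 : IsIntegral (Algebra.adjoin K₁ {x⁻¹}) ((x⁻¹) ^ (J - j - D)) := by
      refine IsIntegral.pow ?_ _
      exact isIntegral_algebraMap (R := Algebra.adjoin K₁ {x⁻¹}) (A := E)
        (x := ⟨x⁻¹, Algebra.subset_adjoin rfl⟩)
    exact h7.mul h6

end Pool.Agent.LibPR29
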