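import Pool.Agent.LibPR29.Defs

set_option autoImplicit false

/-!
PLAN.
`exists_big`: `{x}` is algebraically independent over `K`, so by `exists_isTranscendenceBasis_superset` there is `B ∋ x`,
a transcendence basis of `E` over `K`. Put `K₁ := (IntermediateField.adjoin K (B \ {x})).toSubfield`.
* `x` is transcendental over `Algebra.adjoin K (B \ {x})` (`AlgebraicIndepOn.transcendental_adjoin` or
  `AlgebraicIndependent.transcendental_adjoin`, Mathlib/RingTheory/AlgebraicIndependent/Transcendental.lean), hence over
  its fraction field `IntermediateField.adjoin K (B \ {x})` (there is an `IsFractionRing (Algebra.adjoin F S)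
  (IntermediateField.adjoin F S)` instance, and `IsFractionRing.isAlgebraic_iff`/`IsLocalization`-type lemmas), hence over `K₁`
  (same elements: an algebraic equation over `K₁` is one over the intermediate field; e.g. use
  `IsAlgebraic` and `Polynomial.map` along the identity ring hom, or `Algebra.IsAlgebraic`/`tower` lemmas).
* `E` is algebraic over `Algebra.adjoin K B` (`IsTranscendenceBasis.isAlgebraic`), whose elements lie in
  `Algebra.adjoin K₁ {x}`.
`alg_inv`: every element of `E` is algebraic over the field `K₁(x) = K₁(x⁻¹)`, and the fraction field of `K₁[x⁻¹]` is `K₁(x⁻¹)`.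
Alternative: if `∑ c_i(x) z ^ i = 0` with polynomials `c_i` over `K₁`, multiply by `(x⁻¹) ^ N`, `N` large: the
coefficients `c_i(x) (x⁻¹) ^ N` are in `K₁[x⁻¹]` (`Polynomial.reflect`/`reverse`: `Polynomial.eval₂_reverse_mul_pow`) and not
all zero. (If `x = 0` then `x⁻¹ = 0` and there is nothing to prove.)
-/

namespace Pool.Agent.LibPR29

open Polynomial

private theorem F1a_transfer {A B E : Type} [CommRing A] [CommRing B] [Field E] [Algebra A E]
    [Algebra B E] (φ : A →+* B) (hφ : Function.Injective φ)
    (hc : ∀ a, algebraMap B E (φ a) = algebraMap A E a) {z : E} (h : IsAlgebraic A z) :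
    IsAlgebraic B z := by
  obtain ⟨p, hp, hz⟩ := h
  refine ⟨p.map φ, (Polynomial.map_ne_zero_iff hφ).2 hp, ?_⟩
  have h1 : (algebraMap B E).comp φ = algebraMap A E := RingHom.ext hc
  rw [aeval_def, eval₂_map, h1]
  exact hz

open scoped IntermediateField.algebraAdjoinAdjoin in
private theorem F1a_field {K E : Type} [Field K] [Field E] [Algebra K E] (S : Set E) (z : E) :
    IsAlgebraic (Algebra.adjoin K S) z ↔ IsAlgebraic (IntermediateField.adjoin K S) z :=
  IsFractionRing.isAlgebraic_iff (Algebra.adjoin K S) (IntermediateField.adjoin K S) E (x := z)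

/-- P2d: enlarge `K` such that everything is algebraic over `K(x)`. -/
theorem exists_big {K E : Type} [Field K] [Field E] [Algebra K E] (x : E) (hx : Transcendental K x) :
    ∃ K₁ : Subfield E, (∀ c : K, algebraMap K E c ∈ K₁) ∧ Transcendental K₁ x ∧
      Algebra.IsAlgebraic (Algebra.adjoin K₁ {x}) E := by
  have h0 : AlgebraicIndepOn K id ({x} : Set E) := by
    have : AlgebraicIndependent K (fun i : ({x} : Set E) => (i : E)) :=
      (algebraicIndependent_singleton_iff (⟨x, rfl⟩ : ({x} : Set E))).2 hx
    exact this
  obtain ⟨B, hxB, hB⟩ := exists_isTranscendenceBasis_superset h0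
  have hxB' : x ∈ B := hxB rfl
  set K₀ := IntermediateField.adjoin K (B \ {x}) with hK₀
  refine ⟨K₀.toSubfield, fun c => K₀.algebraMap_mem c, ?_, ?_⟩
  · intro halg
    have h1 : IsAlgebraic K₀ x := by
      refine F1a_transfer (A := K₀.toSubfield) (B := K₀)
        { toFun := fun a => ⟨a.1, a.2⟩
          map_one' := rfl
          map_mul' := fun _ _ => rfl
          map_zero' := rfl
          map_add' := fun _ _ => rfl } (fun a b hab => ?_) (fun a => rfl) halg
      exact Subtype.ext (congrArg (fun t : K₀ => (t : E)) hab)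
    rw [hK₀, ← F1a_field] at h1
    have h2 := hB.1.transcendental_adjoin (s := {i : B | (i : E) ≠ x}) (i := ⟨x, hxB'⟩)
      (fun h => h rfl)
    have h3 : ((↑) : B → E) '' {i : B | (i : E) ≠ x} = B \ {x} := by
      ext t
      constructor
      · rintro ⟨i, hi, rfl⟩
        exact ⟨i.2, hi⟩
      · rintro ⟨h4, h5⟩
        exact ⟨⟨t, h4⟩, h5, rfl⟩
    rw [h3] at h2
    exact h2 h1
  · constructor
    intro z
    have h1 : IsAlgebraic (Algebra.adjoin K (Set.range ((↑) : B → E))) z :=
      hB.isAlgebraic.isAlgebraic z
    have key : ∀ a ∈ Algebra.adjoin K (Set.range ((↑) : B → E)),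
        a ∈ Algebra.adjoin K₀.toSubfield ({x} : Set E) := by
      intro a ha
      have hK : ∀ c : E, c ∈ K₀ → c ∈ Algebra.adjoin K₀.toSubfield ({x} : Set E) := fun c hc =>
        (Algebra.adjoin K₀.toSubfield ({x} : Set E)).algebraMap_mem ⟨c, hc⟩
      induction ha using Algebra.adjoin_induction with
      | mem t ht =>
        obtain ⟨i, rfl⟩ := ht
        by_cases hi : (i : E) = x
        · rw [hi]
          exact Algebra.subset_adjoin rfl
        · exact hK _ (IntermediateField.subset_adjoin K _ ⟨i.2, hi⟩)
      | algebraMap r => exact hK _ (K₀.algebraMap_mem r)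
      | add u v _ _ hu hv => exact add_mem hu hv
      | mul u v _ _ hu hv => exact mul_mem hu hv
    refine F1a_transfer (A := Algebra.adjoin K (Set.range ((↑) : B → E)))
      (B := Algebra.adjoin K₀.toSubfield ({x} : Set E))
      { toFun := fun a => ⟨a.1, key a.1 a.2⟩
        map_one' := rfl
        map_mul' := fun _ _ => rfl
        map_zero' := rfl
        map_add' := fun _ _ => rfl } (fun a b hab => ?_) (fun a => rfl) h1
    exact Subtype.ext (congrArg (fun t : Algebra.adjoin K₀.toSubfield ({x} : Set E) => (t : E)) hab)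

/-- P2e: the same for `x⁻¹`. -/
theorem alg_inv {E : Type} [Field E] (K₁ : Subfield E) (x : E)
    (h : Algebra.IsAlgebraic (Algebra.adjoin K₁ {x}) E) :
    Algebra.IsAlgebraic (Algebra.adjoin K₁ {x⁻¹}) E := by
  constructor
  intro z
  have h1 := h.isAlgebraic z
  rw [F1a_field] at h1 ⊢
  have hle : IntermediateField.adjoin K₁ ({x} : Set E) ≤ IntermediateField.adjoin K₁ {x⁻¹} := by
    rw [IntermediateField.adjoin_simple_le_iff]
    have h2 := IntermediateField.mem_adjoin_simple_self K₁ (x⁻¹)
    have h3 := inv_mem h2
    rwa [inv_inv] at h3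
  refine F1a_transfer (A := IntermediateField.adjoin K₁ ({x} : Set E))
    (B := IntermediateField.adjoin K₁ ({x⁻¹} : Set E))
    (IntermediateField.inclusion hle).toRingHom (IntermediateField.inclusion_injective hle)
    (fun a => rfl) h1

end Pool.Agent.LibPR29
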