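import Pool.Agent.LibHof81.V4

set_option autoImplicit false

/-!
PLAN for `colouring_mod` (compare `values_card` in Pool/Agent/LibHof81/V2.lean and `exists_differences` in V3.lean, whose proofs can be
copied with `N` in place of the valuation).
0. `N (-z) = N z` (`c = -1`), `N (y ^ j * z) = t ^ j * N z`; if `N (z i)` for `i ∈ s` are all `< γ` then `N (∑ z i) < γ` (`0 < γ`); hence if one term
   of a sum is strictly larger than all others the sum has the norm of this term, in particular is not `0`.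
1. Values: the set of all `N z`, `z ∈ U ⊔ I`, `z ≠ 0`, has at most `v + 1` elements. Take elements `z_γ` with `N z_γ = γ` for a finite set
   of values `γ ≠ 1`; their images in `ℂ ⧸ I` are linearly independent over `K`: if `∑ a_γ z_γ ∈ I` with `a ≠ 0` then `N (∑ a_γ z_γ)` is the
   maximal `γ` with `a_γ ≠ 0`, which is neither `0` nor `1`, but elements of `I` have norm `0` or `1`. The images lie in
   `U.map I.mkQ` (as `z_γ ∈ U ⊔ I`), of finrank `≤ v`. So there are at most `v` values `≠ 1`.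
2. Differences: `Δ` = the set of the `δ : ℕ`, `δ ≠ 0`, with `t ^ δ * γ = γ'` for two values `γ, γ'`; `Δ.card ≤ (v + 1) ^ 2`. If no two elements of
   `S` differ by an element of `Δ`, then the nonzero terms `y ^ j z j` have pairwise different norms, so the sum is not `0` unless all
   `z j = 0`.
3. `Pool.Agent.LibHof81.exists_colour Δ ((v + 1) ^ 2)`.
-/

namespace Pool.Agent.LibPR29

private theorem F2b_lt {Γ ι : Type} [LinearOrderedCommGroupWithZero Γ] (N : ℂ → Γ)
    (h0 : ∀ z, N z = 0 ↔ z = 0) (hadd : ∀ z z', N (z + z') ≤ max (N z) (N z'))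
    (s : Finset ι) (f : ι → ℂ) (γ : Γ) (hγ : 0 < γ) (h : ∀ i ∈ s, N (f i) < γ) :
    N (∑ i ∈ s, f i) < γ := by
  classical
  induction s using Finset.induction_on with
  | empty =>
    rw [Finset.sum_empty, (h0 0).2 rfl]
    exact hγ
  | insert i s hi ih =>
    rw [Finset.sum_insert hi]
    exact lt_of_le_of_lt (hadd _ _) (max_lt (h i (Finset.mem_insert_self i s))
      (ih fun j hj => h j (Finset.mem_insert_of_mem hj)))

private theorem F2b_max {Γ ι : Type} [LinearOrderedCommGroupWithZero Γ] (N : ℂ → Γ)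
    (h0 : ∀ z, N z = 0 ↔ z = 0) (hadd : ∀ z z', N (z + z') ≤ max (N z) (N z'))
    (hneg : ∀ z, N (-z) = N z)
    (s : Finset ι) (f : ι → ℂ) (m : ι) (hm : m ∈ s) (hm0 : f m ≠ 0)
    (h : ∀ i ∈ s, i ≠ m → N (f i) < N (f m)) : N (∑ i ∈ s, f i) = N (f m) := by
  classical
  have hpos : 0 < N (f m) := by
    rw [zero_lt_iff]
    exact fun h => hm0 ((h0 _).1 h)
  have hr := F2b_lt N h0 hadd (s.erase m) f (N (f m)) hpos fun i hi =>
    h i (Finset.mem_of_mem_erase hi) (Finset.ne_of_mem_erase hi)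
  rw [← Finset.add_sum_erase s f hm]
  apply le_antisymm
  · exact (hadd _ _).trans (max_le le_rfl hr.le)
  · have h1 := hadd (f m + ∑ i ∈ s.erase m, f i) (-∑ i ∈ s.erase m, f i)
    rw [add_neg_cancel_right, hneg] at h1
    rcases le_max_iff.1 h1 with h2 | h2
    · exact h2
    · exact absurd h2 (not_le.2 hr)

private theorem F2b_values {K : Type} [Field K] [Algebra K ℂ] (I : Submodule K ℂ)
    (Γ : Type) [LinearOrderedCommGroupWithZero Γ] (N : ℂ → Γ)
    (h0 : ∀ z, N z = 0 ↔ z = 0) (hadd : ∀ z z', N (z + z') ≤ max (N z) (N z'))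
    (hc : ∀ (c : K) (z : ℂ), c ≠ 0 → N (c • z) = N z)
    (hI : ∀ z ∈ I, z ≠ 0 → N z = 1)
    (v : ℕ) (U : Submodule K ℂ) (hUf : FiniteDimensional K U) (hU : Module.finrank K U ≤ v) :
    ∃ D : Finset Γ, D.card ≤ v + 1 ∧ ∀ z ∈ U ⊔ I, z ≠ 0 → N z ∈ D := by
  classical
  have hneg : ∀ z, N (-z) = N z := by
    intro z
    have h1 := hc (-1) z (neg_ne_zero.2 one_ne_zero)
    rwa [neg_smul, one_smul] at h1
  have hWfin : Module.Finite K (U.map I.mkQ) := Module.Finite.map U I.mkQ
  have hdim : Module.finrank K (U.map I.mkQ) ≤ v := (Submodule.finrank_map_le I.mkQ U).trans hU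
  have hmem : ∀ z ∈ U ⊔ I, I.mkQ z ∈ U.map I.mkQ := by
    intro z hz
    obtain ⟨u, hu, w, hw, rfl⟩ := Submodule.mem_sup.1 hz
    refine ⟨u, hu, ?_⟩
    have h1 : I.mkQ w = 0 := by
      rw [Submodule.mkQ_apply]
      exact (Submodule.Quotient.mk_eq_zero I).2 hw
    rw [map_add, h1, add_zero]
  set V : Set Γ := {γ | γ ≠ 1 ∧ ∃ z ∈ U ⊔ I, z ≠ 0 ∧ N z = γ} with hV
  have key : ∀ F : Finset Γ, (F : Set Γ) ⊆ V → F.card ≤ v := by
    intro F hF
    have hF' : ∀ γ : F, ∃ z : ℂ, z ∈ U ⊔ I ∧ z ≠ 0 ∧ N z = γ := by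
      intro γ
      obtain ⟨-, z, hz, h1, h2⟩ := hF γ.2
      exact ⟨z, hz, h1, h2⟩
    choose z hz1 hz2 hz3 using hF'
    let z' : F → U.map I.mkQ := fun γ => ⟨I.mkQ (z γ), hmem _ (hz1 γ)⟩
    have hli : LinearIndependent K z' := by
      rw [linearIndependent_iff']
      intro s a hsum
      by_contra hcon
      push Not at hcon
      obtain ⟨i, hi, hai⟩ := hcon
      set S := s.filter (fun i => a i ≠ 0) with hS
      have hSne : S.Nonempty := ⟨i, by rw [hS, Finset.mem_filter]; exact ⟨hi, hai⟩⟩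
      obtain ⟨m, hm, hmax⟩ := S.exists_max_image (fun i : F => (i : Γ)) hSne
      have hsum' : ∑ i ∈ S, a i • z i ∈ I := by
        have h1 : ∑ i ∈ s, a i • I.mkQ (z i) = 0 := by
          have h2 := congrArg (Submodule.subtype _) hsum
          rw [map_sum, map_zero] at h2
          exact h2
        have h3 : ∑ i ∈ S, a i • z i = ∑ i ∈ s, a i • z i := by
          rw [hS, Finset.sum_filter_of_ne]
          intro x _ hx h0
          apply hx
          rw [h0, zero_smul]
        rw [h3, ← Submodule.Quotient.mk_eq_zero, ← Submodule.mkQ_apply, map_sum, ← h1]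
        exact Finset.sum_congr rfl fun i _ => map_smul _ _ _
      have hval : ∀ i ∈ S, N (a i • z i) = (i : Γ) := by
        intro i hi
        rw [hS, Finset.mem_filter] at hi
        rw [hc _ _ hi.2, hz3]
      have hm' := (Finset.mem_filter.1 hm).2
      have hNsum := F2b_max N h0 hadd hneg S (fun i => a i • z i) m hm
        (smul_ne_zero hm' (hz2 m)) (fun i hi hne => by
          rw [hval i hi, hval m hm]
          exact lt_of_le_of_ne (hmax i hi) fun h => hne (Subtype.ext h))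
      rw [hval m hm] at hNsum
      by_cases hz0 : ∑ i ∈ S, a i • z i = 0
      · rw [hz0, (h0 0).2 rfl] at hNsum
        have h5 : N (z m) = 0 := by rw [hz3, ← hNsum]
        exact hz2 m ((h0 _).1 h5)
      · rw [hI _ hsum' hz0] at hNsum
        exact (hF m.2).1 hNsum.symm
    have h1 := hli.fintype_card_le_finrank
    rw [Fintype.card_coe] at h1
    exact h1.trans hdim
  have hVfin : V.Finite := by
    by_contra hinf
    obtain ⟨F, hF, hc⟩ := Set.Infinite.exists_subset_card_eq hinf (v + 1)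
    have := key F hF
    omega
  refine ⟨insert 1 hVfin.toFinset, ?_, fun z hz hz0 => ?_⟩
  · exact (Finset.card_insert_le _ _).trans (Nat.succ_le_succ (key _ (by simp)))
  · by_cases h1 : N z = 1
    · rw [h1]
      exact Finset.mem_insert_self _ _
    · refine Finset.mem_insert_of_mem ?_
      rw [Set.Finite.mem_toFinset]
      exact ⟨h1, z, hz, hz0, rfl⟩

/-- colouring of the levels for `U + I`. -/
theorem colouring_mod {K : Type} [Field K] [Algebra K ℂ] (y : ℂ) (I : Submodule K ℂ)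
    (Γ : Type) [LinearOrderedCommGroupWithZero Γ] (N : ℂ → Γ) (t : Γ) (ht : 1 < t)
    (h0 : ∀ z, N z = 0 ↔ z = 0) (hadd : ∀ z z', N (z + z') ≤ max (N z) (N z'))
    (hc : ∀ (c : K) (z : ℂ), c ≠ 0 → N (c • z) = N z) (hy : ∀ z, N (y * z) = t * N z)
    (hI : ∀ z ∈ I, z ≠ 0 → N z = 1)
    (v : ℕ) (U : Submodule K ℂ) (hUf : FiniteDimensional K U) (hU : Module.finrank K U ≤ v) :
    ∃ χ : ℕ → Fin (2 ^ ((v + 1) ^ 2)), ∀ (S : Finset ℕ) (z : ℕ → ℂ),
      (∀ i ∈ S, ∀ j ∈ S, χ i = χ j) → (∀ j ∈ S, z j ∈ U ⊔ I) →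
        ∑ j ∈ S, y ^ j * z j = 0 → ∀ j ∈ S, z j = 0 := by
  classical
  have hneg : ∀ z, N (-z) = N z := by
    intro z
    have h1 := hc (-1) z (neg_ne_zero.2 one_ne_zero)
    rwa [neg_smul, one_smul] at h1
  obtain ⟨D, hDcard, hD⟩ := F2b_values I Γ N h0 hadd hc hI v U hUf hU
  have ht0 : t ≠ 0 := (zero_lt_one.trans ht).ne'
  have hmono : StrictMono fun n : ℕ => t ^ n := by
    refine strictMono_nat_of_lt_succ fun n => ?_
    rw [pow_succ]
    have h0 : t ^ n ≠ 0 := pow_ne_zero n ht0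
    calc t ^ n = t ^ n * 1 := (mul_one _).symm
      _ < t ^ n * t := by
        exact (mul_lt_mul_iff_right₀ (zero_lt_iff.mpr h0)).mpr ht
  let f : Γ × Γ → ℕ := fun p => if h : ∃ δ : ℕ, t ^ δ * p.2 = p.1 then h.choose else 0
  have hΔcard : (((D ×ˢ D).image f).erase 0).card ≤ (v + 1) ^ 2 := by
    calc (((D ×ˢ D).image f).erase 0).card ≤ ((D ×ˢ D).image f).card := Finset.card_erase_le
      _ ≤ (D ×ˢ D).card := Finset.card_image_le
      _ = D.card * D.card := Finset.card_product D D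
      _ ≤ (v + 1) * (v + 1) := Nat.mul_le_mul hDcard hDcard
      _ = (v + 1) ^ 2 := by ring
  obtain ⟨χ, hχ⟩ := Pool.Agent.LibHof81.exists_colour (((D ×ˢ D).image f).erase 0) ((v + 1) ^ 2)
    hΔcard (by simp)
  refine ⟨χ, fun S z hχS hz hsum => ?_⟩
  have hdiff : ∀ i ∈ S, ∀ j ∈ S, i < j → j - i ∉ ((D ×ˢ D).image f).erase 0 :=
    fun i hi j hj hij hmem => hχ i j hij hmem (hχS i hi j hj)
  by_contra hne
  push Not at hne
  obtain ⟨j0, hj0, hzj0⟩ := hne
  let S' := S.filter fun j => z j ≠ 0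
  have hS'ne : S'.Nonempty := ⟨j0, Finset.mem_filter.mpr ⟨hj0, hzj0⟩⟩
  have hsum' : ∑ j ∈ S', y ^ j * z j = 0 := by
    rw [← hsum]
    refine Finset.sum_subset (Finset.filter_subset _ _) fun j hj hj' => ?_
    have : z j = 0 := by
      by_contra h
      exact hj' (Finset.mem_filter.mpr ⟨hj, h⟩)
    rw [this, mul_zero]
  -- the values are pairwise different
  have hval : ∀ j w, N (y ^ j * w) = t ^ j * N w := by
    intro j
    induction j with
    | zero => intro w; rw [pow_zero, pow_zero, one_mul, one_mul]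
    | succ j ih => intro w; rw [pow_succ', mul_assoc, hy, ih, pow_succ', mul_assoc]
  have hdist : ∀ i ∈ S', ∀ j ∈ S', i < j → N (y ^ i * z i) ≠ N (y ^ j * z j) := by
    intro i hi j hj hij heq
    have hi' := Finset.mem_filter.mp hi
    have hj' := Finset.mem_filter.mp hj
    have hDi := hD _ (hz i hi'.1) hi'.2
    have hDj := hD _ (hz j hj'.1) hj'.2
    apply hdiff i hi'.1 j hj'.1 hij
    have h1 : t ^ (j - i) * N (z j) = N (z i) := by
      rw [hval, hval] at heq
      have h2 : t ^ j = t ^ i * t ^ (j - i) := by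
        rw [← pow_add]
        congr 1
        omega
      rw [h2, mul_assoc] at heq
      exact (mul_left_cancel₀ (pow_ne_zero i ht0) heq).symm
    have h3 : ∃ δ : ℕ, t ^ δ * (N (z i), N (z j)).2 = (N (z i), N (z j)).1 := ⟨j - i, h1⟩
    have hvzj : N (z j) ≠ 0 := fun h => hj'.2 ((h0 _).1 h)
    have h4 : f (N (z i), N (z j)) = j - i := by
      simp only [f]
      rw [dif_pos h3]
      have h5 := h3.choose_spec
      have h6 : t ^ h3.choose = t ^ (j - i) := by
        apply mul_right_cancel₀ hvzj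
        rw [h1]
        exact h5
      exact hmono.injective h6
    refine Finset.mem_erase.mpr ⟨by omega, Finset.mem_image.mpr ⟨(N (z i), N (z j)), ?_, h4⟩⟩
    exact Finset.mem_product.mpr ⟨hDi, hDj⟩
  obtain ⟨m, hm, hmax⟩ := S'.exists_max_image (fun j => N (y ^ j * z j)) hS'ne
  have hm' := Finset.mem_filter.mp hm
  have hNm : N (y ^ m * z m) ≠ 0 := by
    rw [hval]
    exact mul_ne_zero (pow_ne_zero m ht0) fun h => hm'.2 ((h0 _).1 h)
  have hs := F2b_max N h0 hadd hneg S' (fun j => y ^ j * z j) m hm (fun h => hNm ((h0 _).2 h))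
    (fun i hi hne => by
      refine lt_of_le_of_ne (hmax i hi) ?_
      rcases lt_or_gt_of_ne hne with h | h
      · exact hdist i hi m hm h
      · exact (hdist m hm i hi h).symm)
  rw [hsum', (h0 0).2 rfl] at hs
  exact hNm hs.symm

end Pool.Agent.LibPR29
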