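import Mathlib

set_option autoImplicit false

/-!
PLAN for `exists_space`. Put `μ β := ∏ j ∈ univ.erase i, z j ^ β j` and `M := μ α ≠ 0`. `W'` = the range of the `K`-linear map
`(Fin s → Fin (d+1)) → W` to `ℂ`, `g ↦ ∑ β, M⁻¹ * μ β * g β` (compare `exists_step` in Pool/Agent/LibNR93/Tup.lean of origin/main
for the dimension bound: `LinearMap.finrank_range_le`, `Module.finrank_pi_fintype`). For `P` as in the statement,
`eval (update z i x) P = ∑ β ∈ support, coeff β * μ β * x ^ β i` (`MvPolynomial.eval_eq'`, `Finset.mul_prod_erase`, `Function.update`).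
The term `β = α` is `a M x ^ (α i)`; all other `β` in the support have `β i < α i` and `β j ≤ d` for all `j`. Divide by `a M` and group
by `k = β i`: `c k := ∑ β ∈ support \ {α}, β i = k, (a M)⁻¹ * coeff β * μ β ∈ W'` (`a⁻¹ • coeff β ∈ W`).
-/

namespace Pool.Agent.LibPR29

open Finset

/-- the roots of the monic polynomials of degree `d` with the other coefficients in `W`. -/
def RootSet {K : Type} [Field K] [Algebra K ℂ] (W : Submodule K ℂ) (d : ℕ) : Set ℂ :=
  {z | ∃ c : Fin d → ℂ, (∀ i, c i ∈ W) ∧ z ^ d + ∑ i : Fin d, c i * z ^ (i : ℕ) = 0}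

/-- the space of the values of the other variables. -/
theorem exists_space {K : Type} [Field K] [Algebra K ℂ] (W : Submodule K ℂ)
    (hW : FiniteDimensional K W) (d : ℕ) {s : ℕ} (i : Fin s) (α : Fin s →₀ ℕ) (z : Fin s → ℂ)
    (hz : ∀ j, z j ≠ 0) :
    ∃ W' : Submodule K ℂ, FiniteDimensional K W' ∧
      Module.finrank K W' ≤ (d + 1) ^ s * Module.finrank K W ∧
        ∀ x : ℂ, ∀ P : MvPolynomial (Fin s) ℂ, P.totalDegree ≤ d →
          (∃ a : K, a ≠ 0 ∧ P.coeff α = algebraMap K ℂ a) →
          (∀ β, β ≠ α → P.coeff β ∈ W ∧ (P.coeff β ≠ 0 → β i < α i)) →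
          MvPolynomial.eval (Function.update z i x) P = 0 → x ∈ RootSet W' (α i) := by
  classical
  set μ : (Fin s → ℕ) → ℂ := fun β => ∏ j ∈ univ.erase i, z j ^ β j with hμ
  set M : ℂ := μ (fun j => α j) with hM
  have hM0 : M ≠ 0 := by
    rw [hM, hμ]
    exact Finset.prod_ne_zero_iff.mpr (fun j _ => pow_ne_zero _ (hz j))
  let L : ((Fin s → Fin (d + 1)) → W) →ₗ[K] ℂ :=
    ∑ β : Fin s → Fin (d + 1), (LinearMap.mulLeft K (M⁻¹ * μ (fun j => (β j : ℕ)))) ∘ₗ
      W.subtype ∘ₗ LinearMap.proj β
  have hL : ∀ g, L g = ∑ β : Fin s → Fin (d + 1),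
      (M⁻¹ * μ (fun j => (β j : ℕ))) * ((g β : W) : ℂ) := by
    intro g
    simp only [L, LinearMap.sum_apply, LinearMap.comp_apply, LinearMap.mulLeft_apply,
      LinearMap.proj_apply, Submodule.subtype_apply]
  refine ⟨LinearMap.range L, inferInstance, ?_, ?_⟩
  · refine (LinearMap.finrank_range_le L).trans ?_
    rw [Module.finrank_pi_fintype]
    simp
  · intro x P hdeg ha hβ hev
    obtain ⟨a, ha0, haα⟩ := ha
    have ha0' : algebraMap K ℂ a ≠ 0 := by
      rw [Ne, map_eq_zero]
      exact ha0
    set a' : ℂ := algebraMap K ℂ a with ha'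
    -- the coefficients
    let t : (Fin s →₀ ℕ) → ℂ := fun β => (a' * M)⁻¹ * P.coeff β * μ (fun j => β j)
    have hmemt : ∀ β ∈ P.support, β ≠ α → t β ∈ LinearMap.range L := by
      intro β hβs hβα
      have hle : ∀ j, β j ≤ d := by
        intro j
        have h1 : β j ≤ β.sum fun _ e => e := by
          by_cases hj : β j = 0
          · rw [hj]; exact Nat.zero_le _
          · rw [Finsupp.sum]
            exact Finset.single_le_sum (f := fun k => β k) (fun _ _ => Nat.zero_le _)
              (Finsupp.mem_support_iff.mpr hj)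
        exact h1.trans ((MvPolynomial.le_totalDegree hβs).trans hdeg)
      have hW' : a⁻¹ • P.coeff β ∈ W := W.smul_mem _ (hβ β hβα).1
      refine ⟨Pi.single (fun j => (⟨β j, Nat.lt_succ_of_le (hle j)⟩ : Fin (d + 1)))
        (⟨a⁻¹ • P.coeff β, hW'⟩ : W), ?_⟩
      rw [hL]
      rw [Finset.sum_eq_single (fun j => (⟨β j, Nat.lt_succ_of_le (hle j)⟩ : Fin (d + 1)))]
      · rw [Pi.single_eq_same]
        simp only [t]
        have : a⁻¹ • P.coeff β = a'⁻¹ * P.coeff β := by
          rw [Algebra.smul_def, map_inv₀]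
        rw [this]
        rw [mul_inv]
        ring
      · intro b _ hb
        rw [Pi.single_eq_of_ne hb]
        simp
      · intro h
        exact absurd (Finset.mem_univ _) h
    have hlt : ∀ β ∈ P.support.erase α, β i < α i := by
      intro β hβe
      rw [Finset.mem_erase, MvPolynomial.mem_support_iff] at hβe
      exact (hβ β hβe.1).2 hβe.2
    refine ⟨fun k => ∑ β ∈ (P.support.erase α).filter (fun β => β i = (k : ℕ)), t β, ?_, ?_⟩
    · intro k
      refine Submodule.sum_mem _ (fun β hβm => ?_)
      rw [Finset.mem_filter, Finset.mem_erase] at hβm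
      exact hmemt β hβm.1.2 hβm.1.1
    · have hαs : α ∈ P.support := by
        rw [MvPolynomial.mem_support_iff, haα]
        exact ha0'
      have hev2 : ∑ β ∈ P.support, P.coeff β * (x ^ β i * μ (fun j => β j)) = 0 := by
        rw [← hev, MvPolynomial.eval_eq']
        refine Finset.sum_congr rfl (fun β _ => ?_)
        congr 1
        rw [← Finset.mul_prod_erase univ _ (Finset.mem_univ i)]
        rw [Function.update_self]
        congr 1
        rw [hμ]
        refine Finset.prod_congr rfl (fun j hj => ?_)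
        rw [Function.update_of_ne (Finset.ne_of_mem_erase hj)]
      rw [← Finset.add_sum_erase _ _ hαs] at hev2
      have hsum : ∑ k : Fin (α i), (∑ β ∈ (P.support.erase α).filter (fun β => β i = (k : ℕ)),
          t β) * x ^ (k : ℕ) = ∑ β ∈ P.support.erase α, t β * x ^ β i := by
        rw [Fin.sum_univ_eq_sum_range (fun k => (∑ β ∈ (P.support.erase α).filter
          (fun β => β i = k), t β) * x ^ k) (α i)]
        rw [← Finset.sum_fiberwise_of_maps_to (s := P.support.erase α) (t := Finset.range (α i))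
          (g := fun β => β i) (fun β hβe => Finset.mem_range.mpr (hlt β hβe))]
        refine Finset.sum_congr rfl (fun k _ => ?_)
        rw [Finset.sum_mul]
        refine Finset.sum_congr rfl (fun β hβe => ?_)
        rw [(Finset.mem_filter.mp hβe).2]
      rw [hsum]
      have hfin : ∑ β ∈ P.support.erase α, t β * x ^ β i =
          (a' * M)⁻¹ * ∑ β ∈ P.support.erase α, P.coeff β * (x ^ β i * μ (fun j => β j)) := by
        rw [Finset.mul_sum]
        refine Finset.sum_congr rfl (fun β _ => ?_)
        simp only [t]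
        ring
      rw [hfin, eq_neg_of_add_eq_zero_right hev2, haα]
      rw [show μ (fun j => α j) = M from rfl]
      field_simp
      ring

end Pool.Agent.LibPR29
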