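import Pool.Agent.LibPR29.Defs

set_option autoImplicit false

/-!
PLAN for `rootOver_sub`: `W = span K ({1} ∪ range w)`; as `1 ∈ W`, `W ≤ W ^ k` for `k ≥ 1`. For `z ∈ RootOver K w d` take
`P = X ^ d + ∑ i, C (∑ p, c i p * w p) * X ^ i` (monic of degree `d`).

PLAN for `good_uniform` (ultraproduct). Suppose not; then for every `M : ℕ` there are `K M`, `x M`, `w M` (`choose`) with
`¬ Good (x M) (RootOver (K M) (w M) d) (e D)` for all `1 ≤ D ≤ M`. Let `U := Filter.hyperfilter ℕ` and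
`E := (U : Filter ℕ).Germ ℂ` (a field, Mathlib/Order/Filter/FilterProduct.lean). Let `Kstar : Subfield E` be the set of the germs
`↑f` with `∀ᶠ M in U, f M ∈ K M` (equivalently germs of `f` with `f M ∈ K M` for all `M`), `xstar = ↑x`, `wstar p = ↑(fun M => w M p)`.
* `xstar` is transcendental over `Kstar`: a polynomial equation `∑ c_i xstar ^ i = 0` with `c_i = ↑(f_i)` holds for `U`-almost all
  `M`, so all `f_i M = 0` for almost all `M` (finitely many `i`; `Filter.eventually_all_finset`).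
* `hE` gives `D ≥ 1` with `Good xstar (RootOver Kstar wstar d) (e D)`.
* For almost all `M` (all `M ≥ D`; `Filter.hyperfilter_le_cofinite`, or `Filter.Tendsto`/`Nat.hyperfilter_le_atTop`) there are
  `r M : ι D → ℂ` in `RootOver (K M) (w M) d`, with `∑ x ^ e r = 0` and `∃ j, ∑ (e k = j) r k ≠ 0`; choose `r M` and the
  coefficients `c M` of the roots. The germs `rstar k = ↑(fun M => r M k)` are in `RootOver Kstar wstar d` and
  `∑ xstar ^ e rstar = 0`, so `∑ (e k = j) rstar k = 0` for all `j`; for the finitely many values `j` of `e` this holds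
  simultaneously at almost all `M` (for the other `j` the sum is empty): contradiction.
-/

namespace Pool.Agent.LibPR29

open Polynomial

theorem U1_le_pow {K E : Type} [Field K] [Field E] [Algebra K E] (W : Submodule K E) (h1 : (1 : E) ∈ W)
    (k : ℕ) (hk : 1 ≤ k) : W ≤ W ^ k := by
  have h1' : (1 : Submodule K E) ≤ W := Submodule.one_le.mpr h1
  calc W = W ^ 1 := (pow_one W).symm
    _ ≤ W ^ k := pow_le_pow_right' h1' hk

theorem rootOver_sub {E : Type} [Field E] (K : Subfield E) {v : ℕ} (w : Fin v → E) (d : ℕ) :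
    ∃ W : Submodule K E, FiniteDimensional K W ∧ RootOver K w d ⊆ IntOver W := by
  classical
  refine ⟨Submodule.span K ({1} ∪ Set.range w), ?_, ?_⟩
  · exact FiniteDimensional.span_of_finite K ((Set.finite_singleton _).union (Set.finite_range w))
  · rintro z ⟨c, hc, hz⟩
    set W : Submodule K E := Submodule.span K ({1} ∪ Set.range w) with hW
    have h1 : (1 : E) ∈ W := Submodule.subset_span (Or.inl rfl)
    have hw : ∀ p, w p ∈ W := fun p => Submodule.subset_span (Or.inr ⟨p, rfl⟩)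
    have hlt : (∑ i : Fin d, C (∑ p, c i p * w p) * X ^ (i : ℕ) : E[X]).degree < d :=
      degree_sum_fin_lt (fun i : Fin d => ∑ p, c i p * w p)
    have hnd : (X ^ d + ∑ i : Fin d, C (∑ p, c i p * w p) * X ^ (i : ℕ) : E[X]).natDegree = d := by
      rw [natDegree_add_eq_left_of_degree_lt (by rwa [degree_X_pow]), natDegree_X_pow]
    refine ⟨X ^ d + ∑ i : Fin d, C (∑ p, c i p * w p) * X ^ (i : ℕ), monic_X_pow_add hlt, ?_, ?_⟩
    · intro i hi
      rw [hnd] at hi ⊢
      refine U1_le_pow W h1 (d - i) (by omega) ?_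
      have hco : (X ^ d + ∑ i : Fin d, C (∑ p, c i p * w p) * X ^ (i : ℕ) : E[X]).coeff i =
          ∑ p, c ⟨i, hi⟩ p * w p := by
        rw [coeff_add, coeff_X_pow, if_neg (by omega), zero_add, finsetSum_coeff,
          Finset.sum_eq_single (⟨i, hi⟩ : Fin d)]
        · rw [coeff_C_mul_X_pow, if_pos rfl]
        · intro b _ hb
          rw [coeff_C_mul_X_pow, if_neg]
          intro h
          exact hb (Fin.ext h.symm)
        · intro h
          exact absurd (Finset.mem_univ _) h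
      rw [hco]
      refine Submodule.sum_mem _ fun p _ => ?_
      have := W.smul_mem (⟨c ⟨i, hi⟩ p, hc _ _⟩ : K) (hw p)
      simpa [Subfield.smul_def] using this
    · rw [eval_add, eval_pow, eval_X, eval_finsetSum, ← hz]
      congr 1
      refine Finset.sum_congr rfl fun i _ => ?_
      rw [eval_mul, eval_C, eval_pow, eval_X]

theorem U1_trans {E : Type} [Field E] (K : Subfield E) (x : E) (hx : Transcendental K x) (n : ℕ) (c : ℕ → E)
    (hc : ∀ i ∈ Finset.range n, c i ∈ K) (h : ∑ i ∈ Finset.range n, c i * x ^ i = 0) :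
    ∀ i ∈ Finset.range n, c i = 0 := by
  classical
  have hp := transcendental_iff.mp hx
    (∑ i ∈ Finset.range n, C (if h : c i ∈ K then (⟨c i, h⟩ : K) else 0) * X ^ i) ?_
  · intro i hi
    have := congrArg (fun p => p.coeff i) hp
    simp only [finsetSum_coeff, coeff_C_mul_X_pow, coeff_zero] at this
    rw [Finset.sum_eq_single i] at this
    · rw [if_pos rfl, dif_pos (hc i hi)] at this
      exact congrArg Subtype.val this
    · intro b _ hb
      rw [if_neg (Ne.symm hb)]
    · intro h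
      exact absurd hi h
  · rw [map_sum, ← h]
    refine Finset.sum_congr rfl fun i hi => ?_
    rw [map_mul, aeval_C, map_pow, aeval_X, dif_pos (hc i hi)]
    rfl

/-- the ring map from sequences to germs -/
noncomputable def U1_g : (ℕ → ℂ) →+* ((Filter.hyperfilter ℕ : Ultrafilter ℕ) : Filter ℕ).Germ ℂ :=
  Filter.Germ.coeRingHom _

theorem U1_g_zero (f : ℕ → ℂ) :
    U1_g f = 0 ↔ ∀ᶠ M in ((Filter.hyperfilter ℕ : Ultrafilter ℕ) : Filter ℕ), f M = 0 :=
  Filter.Germ.coe_eq

theorem U1_g_inv (f : ℕ → ℂ) : U1_g f⁻¹ = (U1_g f)⁻¹ := rfl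

theorem U1_g_surj (a : ((Filter.hyperfilter ℕ : Ultrafilter ℕ) : Filter ℕ).Germ ℂ) : ∃ f, U1_g f = a := by
  induction a using Filter.Germ.inductionOn with
  | _ f => exact ⟨f, rfl⟩

/-- the ultraproduct of the subfields -/
noncomputable def U1_K (K : ℕ → Subfield ℂ) :
    Subfield (((Filter.hyperfilter ℕ : Ultrafilter ℕ) : Filter ℕ).Germ ℂ) where
  carrier := {a | ∃ f : ℕ → ℂ, (∀ᶠ M in ((Filter.hyperfilter ℕ : Ultrafilter ℕ) : Filter ℕ), f M ∈ K M) ∧
    U1_g f = a}
  mul_mem' := by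
    rintro _ _ ⟨f, hf, rfl⟩ ⟨g, hg, rfl⟩
    exact ⟨f * g, (hf.and hg).mono fun M h => (K M).mul_mem h.1 h.2, map_mul _ _ _⟩
  one_mem' := ⟨1, Filter.Eventually.of_forall fun M => (K M).one_mem, map_one _⟩
  add_mem' := by
    rintro _ _ ⟨f, hf, rfl⟩ ⟨g, hg, rfl⟩
    exact ⟨f + g, (hf.and hg).mono fun M h => (K M).add_mem h.1 h.2, map_add _ _ _⟩
  zero_mem' := ⟨0, Filter.Eventually.of_forall fun M => (K M).zero_mem, map_zero _⟩
  neg_mem' := by
    rintro _ ⟨f, hf, rfl⟩
    exact ⟨-f, hf.mono fun M h => (K M).neg_mem h, map_neg _ _⟩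
  inv_mem' := by
    rintro _ ⟨f, hf, rfl⟩
    exact ⟨f⁻¹, hf.mono fun M h => (K M).inv_mem h, U1_g_inv f⟩

theorem U1_mem_K (K : ℕ → Subfield ℂ) (a : ((Filter.hyperfilter ℕ : Ultrafilter ℕ) : Filter ℕ).Germ ℂ) :
    a ∈ U1_K K ↔ ∃ f : ℕ → ℂ,
      (∀ᶠ M in ((Filter.hyperfilter ℕ : Ultrafilter ℕ) : Filter ℕ), f M ∈ K M) ∧ U1_g f = a := Iff.rfl

theorem U1_xstar (K : ℕ → Subfield ℂ) (x : ℕ → ℂ) (hx : ∀ M, Transcendental (K M) (x M)) :
    Transcendental (U1_K K) (U1_g x) := by
  classical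
  refine transcendental_iff.mpr fun p hp => ?_
  have hco : ∀ i, ∃ f : ℕ → ℂ,
      (∀ᶠ M in ((Filter.hyperfilter ℕ : Ultrafilter ℕ) : Filter ℕ), f M ∈ K M) ∧
        U1_g f = ((p.coeff i : U1_K K) : ((Filter.hyperfilter ℕ : Ultrafilter ℕ) : Filter ℕ).Germ ℂ) :=
    fun i => (U1_mem_K K _).mp (p.coeff i).2
  choose f hfK hfp using hco
  set n := p.natDegree + 1 with hn
  have hsum : U1_g (∑ i ∈ Finset.range n, f i * x ^ i) = 0 := by
    rw [← hp, aeval_eq_sum_range, map_sum]
    refine Finset.sum_congr rfl fun i _ => ?_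
    rw [map_mul, map_pow, hfp]
    rfl
  have h1 : ∀ᶠ M in ((Filter.hyperfilter ℕ : Ultrafilter ℕ) : Filter ℕ), ∀ i ∈ Finset.range n, f i M ∈ K M :=
    (Filter.eventually_all_finset _).mpr fun i _ => hfK i
  have h2 : ∀ᶠ M in ((Filter.hyperfilter ℕ : Ultrafilter ℕ) : Filter ℕ), ∀ i ∈ Finset.range n, f i M = 0 := by
    filter_upwards [h1, (U1_g_zero _).mp hsum] with M hM hM0
    refine U1_trans (K M) (x M) (hx M) n (fun i => f i M) hM ?_
    rw [← hM0, Finset.sum_apply]
    rfl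
  ext i
  by_cases hi : i ∈ Finset.range n
  · have h3 : U1_g (f i) = 0 := (U1_g_zero _).mpr (h2.mono fun M h => h i hi)
    rw [hfp] at h3
    rw [coeff_zero]
    exact h3
  · have : p.natDegree < i := by
      rw [Finset.mem_range] at hi
      omega
    rw [coeff_eq_zero_of_natDegree_lt this, coeff_zero]

/-- P3: uniformity, by an ultraproduct. -/
theorem good_uniform (v d : ℕ) (ι : ℕ → Type) [∀ D, Fintype (ι D)] (e : ∀ D, ι D → ℕ)
    (hE : ∀ (E : Type) [Field E] (K : Subfield E) (x : E), Transcendental K x → ∀ w : Fin v → E,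
      ∃ D, 1 ≤ D ∧ Good x (RootOver K w d) (e D)) :
    ∃ Dm : ℕ, ∀ (K : Subfield ℂ) (x : ℂ), Transcendental K x → ∀ w : Fin v → ℂ,
      ∃ D, 1 ≤ D ∧ D ≤ Dm ∧ Good x (RootOver K w d) (e D) := by
  classical
  by_contra H
  push Not at H
  choose K x hx w hw using H
  obtain ⟨D, hD1, hG⟩ := hE _ (U1_K K) (U1_g x) (U1_xstar K x hx) (fun p => U1_g (fun M => w M p))
  have hbad : ∀ M, ∃ (r : ι D → ℂ) (c : ι D → Fin d → Fin v → ℂ), D ≤ M →
      ((∀ k i p, c k i p ∈ K M) ∧
        (∀ k, r k ^ d + ∑ i : Fin d, (∑ p, c k i p * w M p) * r k ^ (i : ℕ) = 0) ∧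
        ∑ k, x M ^ e D k * r k = 0 ∧ ∃ j, ∑ k with e D k = j, r k ≠ 0) := by
    intro M
    by_cases hM : D ≤ M
    · have h := hw M D hD1 hM
      unfold Good at h
      push Not at h
      obtain ⟨r, hr, hs, j, hj⟩ := h
      choose c hc hcr using hr
      exact ⟨r, c, fun _ => ⟨hc, hcr, hs, j, hj⟩⟩
    · exact ⟨0, 0, fun h => absurd h hM⟩
  choose r c hrc using hbad
  have hev : ∀ᶠ M in ((Filter.hyperfilter ℕ : Ultrafilter ℕ) : Filter ℕ), D ≤ M :=
    Nat.hyperfilter_le_atTop (Filter.eventually_ge_atTop D)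
  have hroot : ∀ k, U1_g (fun M => r M k) ∈ RootOver (U1_K K) (fun p => U1_g (fun M => w M p)) d := by
    intro k
    refine ⟨fun i p => U1_g (fun M => c M k i p), fun i p => ?_, ?_⟩
    · exact (U1_mem_K K _).mpr ⟨_, hev.mono fun M hM => (hrc M hM).1 k i p, rfl⟩
    · have h0 : U1_g ((fun M => r M k) ^ d + ∑ i : Fin d,
          (∑ p, (fun M => c M k i p) * (fun M => w M p)) * (fun M => r M k) ^ (i : ℕ)) = 0 := by
        refine (U1_g_zero _).mpr (hev.mono fun M hM => ?_)
        have := (hrc M hM).2.1 k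
        rw [Pi.add_apply, Pi.pow_apply, Finset.sum_apply, ← this]
        congr 1
        refine Finset.sum_congr rfl fun i _ => ?_
        rw [Pi.mul_apply, Pi.pow_apply, Finset.sum_apply]
        rfl
      rw [map_add, map_pow, map_sum] at h0
      rw [← h0]
      congr 1
      refine Finset.sum_congr rfl fun i _ => ?_
      rw [map_mul, map_pow, map_sum]
      simp only [map_mul]
  have hrel : ∑ k, U1_g x ^ e D k * U1_g (fun M => r M k) = 0 := by
    have h0 : U1_g (∑ k, x ^ e D k * (fun M => r M k)) = 0 := by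
      refine (U1_g_zero _).mpr (hev.mono fun M hM => ?_)
      rw [Finset.sum_apply, ← (hrc M hM).2.2.1]
      rfl
    rw [map_sum] at h0
    rw [← h0]
    refine Finset.sum_congr rfl fun k _ => ?_
    rw [map_mul, map_pow]
  have hz := hG (fun k => U1_g (fun M => r M k)) hroot hrel
  have hz' : ∀ᶠ M in ((Filter.hyperfilter ℕ : Ultrafilter ℕ) : Filter ℕ),
      ∀ j ∈ Finset.univ.image (e D), ∑ k with e D k = j, r M k = 0 := by
    refine (Filter.eventually_all_finset _).mpr fun j _ => ?_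
    have h := hz j
    rw [← map_sum] at h
    refine ((U1_g_zero _).mp h).mono fun M hM => ?_
    rw [Finset.sum_apply] at hM
    exact hM
  obtain ⟨M, hM, hMz⟩ := (hev.and hz').exists
  obtain ⟨j, hj⟩ := (hrc M hM).2.2.2
  by_cases hj' : j ∈ Finset.univ.image (e D)
  · exact hj (hMz j hj')
  · refine hj (Finset.sum_eq_zero fun k hk => ?_)
    exact absurd (Finset.mem_image.mpr ⟨k, Finset.mem_univ _, (Finset.mem_filter.mp hk).2⟩) hj'

end Pool.Agent.LibPR29
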