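import Pool.Agent.LibPR29.C1
import Pool.Agent.LibPR29.F1
import Pool.Agent.LibPR29.U1
import Pool.Agent.LibPR29.T1b
import Pool.Agent.LibHB89.G5

set_option autoImplicit false

namespace Pool.Agent.LibPR29

open MeasureTheory Finset Pool.HB89

/-- words. -/
theorem words (l : ℕ) (ε : ℝ) (hε : 0 < ε) :
    ∃ m : ℕ → ℕ, ∀ Cm : ℕ, ∃ m₀ : ℕ, ∀ m' : ℕ, m₀ ≤ m' → ∀ N : ℕ,
      ∀ Z : Set ℂ, (∀ (q : ℚ), ∀ z ∈ Z, (q : ℂ) * z ∈ Z) →
        (∃ C, C ≤ Cm ∧ Sep (nu l) (sp l) (Real.pi : ℂ) Z (m C) C) →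
        (({w ∈ hoffmanIn l N m' | (mzv w : ℂ) ∈ Z}).ncard : ℝ) ≤
          ε * ((hoffmanIn l N m').ncard : ℝ) := by
  classical
  obtain ⟨M, hM⟩ := shells l (nu l) (sp l) (sp_measurable l) (sp_nonneg l)
    (Filter.Eventually.of_forall (sp_sum l)) (fun p hp hs ρ hρ => nu_full l p hp hs ρ hρ) ε hε
  refine ⟨M, fun Dm => ?_⟩
  obtain ⟨T₀, hT₀⟩ := hM Dm
  refine ⟨2 * T₀ + 3 * l + 2, fun m hm N Z hZq hG => ?_⟩
  set X : ℕ := (N - 3 * l + 1) / 2 with hX
  set T : ℕ := (N + m - 3 * l + 1) / 2 - (N - 3 * l + 1) / 2 with hT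
  have hTT : T₀ ≤ T := by omega
  have hmain := hT₀ T hTT X (Real.pi : ℂ) Z hG
  have heq := hoffmanIn_eq l N m
  rw [← hX, ← hT] at heq
  have hcard : (hoffmanIn l N m).ncard = (Sh l X T).card := by
    rw [heq, Set.ncard_image_of_injective _ (word_injective l), Set.ncard_coe_finset]
  rw [hcard]
  refine le_trans ?_ hmain
  rw [Nat.cast_le, ← Set.ncard_coe_finset]
  have hsub : {w ∈ hoffmanIn l N m | (mzv w : ℂ) ∈ Z} ⊆
      word l '' (((Sh l X T).filter
          (fun a => (Real.pi : ℂ) ^ (2 * ∑ i, a i) *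
            ((∫ ω, ∏ i, sp l ω i ^ (2 * a i) ∂(nu l) : ℝ) : ℂ) ∈ Z) :
              Finset (Fin (l + 1) → ℕ)) : Set (Fin (l + 1) → ℕ)) := by
    rintro w ⟨hw1, hw2⟩
    rw [heq] at hw1
    obtain ⟨a, ha, rfl⟩ := hw1
    refine ⟨a, ?_, rfl⟩
    rw [Finset.mem_coe, Finset.mem_filter]
    refine ⟨Finset.mem_coe.1 ha, ?_⟩
    have h1 := Hv_eq l a
    rw [← pow_mul] at h1
    rw [← h1, Hv]
    have h2 := hZq (nfac l a : ℚ) _ hw2
    push_cast at h2
    exact h2
  refine le_trans (Set.ncard_le_ncard hsub ((Finset.finite_toSet _).image _)) ?_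
  exact Set.ncard_image_le (Finset.finite_toSet _)

theorem sep_of_good' (l : ℕ) (Z : Set ℂ) (hZ0 : (0 : ℂ) ∈ Z)
    (hZq : ∀ (q : ℚ), ∀ z ∈ Z, (q : ℂ) * z ∈ Z) (m D : ℕ) (hD : 1 ≤ D)
    (hG : Good (((Real.pi : ℂ) ^ 2)⁻¹) Z (eD l m D)) : Sep (nu l) (sp l) (Real.pi : ℂ) Z m D :=
  sep_of_good (nu l) (sp l) (sp_measurable l) (sp_nonneg l) (Filter.Eventually.of_forall (sp_sum l))
    (Real.pi : ℂ) (by exact_mod_cast Real.pi_ne_zero) Z hZ0 hZq m D hD hG

theorem rootOver_zero {E : Type} [Field E] (K : Subfield E) {v : ℕ} (w : Fin v → E) (d : ℕ) (hd : 1 ≤ d) :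
    (0 : E) ∈ RootOver K w d := by
  refine ⟨fun _ _ => 0, fun _ _ => K.zero_mem, ?_⟩
  rw [zero_pow (by omega)]
  simp

theorem rootOver_mul {E : Type} [Field E] (K : Subfield E) {v : ℕ} (w : Fin v → E) (d : ℕ)
    (q : E) (hq : q ∈ K) (z : E) (hz : z ∈ RootOver K w d) : q * z ∈ RootOver K w d := by
  obtain ⟨c, hc, h⟩ := hz
  refine ⟨fun i p => q ^ (d - i) * c i p, fun i p => K.mul_mem (K.pow_mem hq _) (hc i p), ?_⟩
  have h2 : (q * z) ^ d + ∑ i : Fin d, (∑ p, q ^ (d - (i : ℕ)) * c i p * w p) * (q * z) ^ (i : ℕ) =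
      q ^ d * (z ^ d + ∑ i : Fin d, (∑ p, c i p * w p) * z ^ (i : ℕ)) := by
    rw [mul_add, Finset.mul_sum, mul_pow]
    congr 1
    refine Finset.sum_congr rfl (fun i _ => ?_)
    have h3 : ∑ p, q ^ (d - (i : ℕ)) * c i p * w p = q ^ (d - (i : ℕ)) * ∑ p, c i p * w p := by
      rw [Finset.mul_sum]
      exact Finset.sum_congr rfl (fun p _ => by ring)
    have h4 : q ^ d = q ^ (d - (i : ℕ)) * q ^ (i : ℕ) := by
      rw [← pow_add]
      congr 1
      omega
    rw [h3, h4, mul_pow]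
    ring
  rw [h2, h, mul_zero]

theorem intOver_zero {K E : Type} [Field K] [Field E] [Algebra K E] (W : Submodule K E) :
    (0 : E) ∈ IntOver W := by
  refine ⟨Polynomial.X, Polynomial.monic_X, ?_, by simp⟩
  intro i hi
  rw [Polynomial.natDegree_X] at hi
  have : i = 0 := by omega
  subst this
  simp

theorem intOver_mul {K E : Type} [Field K] [Field E] [Algebra K E] (W : Submodule K E)
    (q : K) (z : E) (hz : z ∈ IntOver W) : algebraMap K E q * z ∈ IntOver W := by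
  obtain ⟨P, hP, hc, h⟩ := hz
  refine ⟨P.scaleRoots (algebraMap K E q), (Polynomial.monic_scaleRoots_iff _).2 hP, ?_, ?_⟩
  · intro i hi
    rw [Polynomial.natDegree_scaleRoots] at hi ⊢
    rw [Polynomial.coeff_scaleRoots, mul_comm, ← map_pow, ← Algebra.smul_def]
    exact Submodule.smul_mem _ _ (hc i hi)
  · have := Polynomial.scaleRoots_eval₂_eq_zero (p := P) (RingHom.id E) (r := z) (s := algebraMap K E q)
      (by rw [Polynomial.eval₂_id]; exact h)
    rwa [Polynomial.eval₂_id, RingHom.id_apply] at this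

/-- transfer to a subfield. -/
theorem rootSet_sub {K : Type} [Field K] [Algebra K ℂ] (W : Submodule K ℂ) (hW : FiniteDimensional K W)
    (v d : ℕ) (hv : Module.finrank K W ≤ v) :
    ∃ w : Fin v → ℂ, RootSet W d ⊆ RootOver (algebraMap K ℂ).fieldRange w d := by
  have hspan : ∃ w : Fin v → ℂ, ∀ x ∈ W, ∃ c : Fin v → K, x = ∑ p, algebraMap K ℂ (c p) * w p := by
    set b := Module.finBasis K W with hb
    refine ⟨fun p => if h : (p : ℕ) < Module.finrank K W then (b ⟨p, h⟩ : ℂ) else 0, fun x hx => ?_⟩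
    refine ⟨fun p => if h : (p : ℕ) < Module.finrank K W then b.repr ⟨x, hx⟩ ⟨p, h⟩ else 0, ?_⟩
    have h1 := b.sum_repr ⟨x, hx⟩
    have h2 := congrArg (Subtype.val) h1
    simp only [AddSubmonoidClass.coe_finsetSum, SetLike.val_smul] at h2
    refine h2.symm.trans (Eq.symm ?_)
    beta_reduce
    refine Finset.sum_bij_ne_zero (fun p _ hp => (⟨p, by
      by_contra hcon
      apply hp
      rw [dif_neg hcon, dif_neg hcon, mul_zero]⟩ : Fin (Module.finrank K W))) (fun _ _ _ => Finset.mem_univ _) ?_ ?_ ?_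
    · intro p1 _ _ p2 _ _ he
      have := congrArg Fin.val he
      exact Fin.ext this
    · intro p _ hp
      refine ⟨⟨p, lt_of_lt_of_le p.2 hv⟩, Finset.mem_univ _, ?_, rfl⟩
      rw [dif_pos p.2, dif_pos p.2, ← Algebra.smul_def]
      exact hp
    · intro p _ hp
      have hlt : (p : ℕ) < Module.finrank K W := by
        by_contra hcon
        apply hp
        rw [dif_neg hcon, dif_neg hcon, mul_zero]
      simp only [hlt, dif_pos, ← Algebra.smul_def]
  obtain ⟨w, hw⟩ := hspan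
  refine ⟨w, fun z hz => ?_⟩
  obtain ⟨c, hc, h⟩ := hz
  choose c' hc' using fun i => hw (c i) (hc i)
  refine ⟨fun i p => algebraMap K ℂ (c' i p), fun i p => ⟨c' i p, rfl⟩, ?_⟩
  rw [← h]
  congr 1
  refine Finset.sum_congr rfl (fun i _ => ?_)
  rw [← hc' i]

theorem transcendental_range {K : Type} [Field K] [Algebra K ℂ] (x : ℂ) (hx : Transcendental K x) :
    Transcendental (algebraMap K ℂ).fieldRange x := by
  intro h
  apply hx
  obtain ⟨P, hP0, hP⟩ := h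
  have hinj : Function.Injective (algebraMap K ℂ).rangeRestrictField := (algebraMap K ℂ).rangeRestrictField.injective
  have hsurj : Function.Surjective (algebraMap K ℂ).rangeRestrictField := by
    rintro ⟨y, c, rfl⟩
    exact ⟨c, rfl⟩
  obtain ⟨Q, hQ⟩ := Polynomial.map_surjective _ hsurj P
  refine ⟨Q, ?_, ?_⟩
  · rintro rfl
    rw [Polynomial.map_zero] at hQ
    exact hP0 hQ.symm
  · rw [← hQ, Polynomial.aeval_def, Polynomial.eval₂_map] at hP
    rw [Polynomial.aeval_def]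
    exact hP

theorem pi_inv {K : Type} [Field K] [Algebra K ℂ] (hK : Transcendental K (Real.pi : ℂ)) :
    Transcendental K (((Real.pi : ℂ) ^ 2)⁻¹) := by
  intro h
  rw [IsAlgebraic.inv_iff] at h
  exact hK (IsAlgebraic.of_pow (by norm_num) h)

/-- Part A for single values. -/
theorem root_window (l v d : ℕ) (hd : 1 ≤ d) (ε : ℝ) (hε : 0 < ε) :
    ∃ m₀ : ℕ, ∀ m : ℕ, m₀ ≤ m → ∀ N : ℕ, ∀ (K : Type) [Field K] [Algebra K ℂ],
      Transcendental K (Real.pi : ℂ) → ∀ W : Submodule K ℂ, FiniteDimensional K W →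
        Module.finrank K W ≤ v →
        (({w ∈ hoffmanIn l N m | (mzv w : ℂ) ∈ RootSet W d}).ncard : ℝ) ≤
          ε * ((hoffmanIn l N m).ncard : ℝ) := by
  obtain ⟨M, hM⟩ := words l ε hε
  obtain ⟨Dm, hDm⟩ := good_uniform v d (fun D => Fin (l + 1) → Fin (M D)) (fun D => eD l (M D) D)
    (fun E _ K x hx w => by
      obtain ⟨W, hW, hsub⟩ := rootOver_sub K w d
      obtain ⟨D₀, hD₀⟩ := good_fixed x hx W hW
      refine ⟨max D₀ 1, le_max_right _ _, ?_⟩
      intro r hr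
      exact hD₀ (max D₀ 1) (le_max_left _ _) _ _ (dvd_eD l _ _) r (fun k => hsub (hr k)))
  obtain ⟨m₀, hm₀⟩ := hM Dm
  refine ⟨m₀, fun m hm N K _ _ hK W hWf hWv => ?_⟩
  obtain ⟨w, hw⟩ := rootSet_sub W hWf v d hWv
  have hx := transcendental_range _ (pi_inv hK)
  have hq : ∀ (q : ℚ), ∀ z ∈ RootOver (algebraMap K ℂ).fieldRange w d,
      (q : ℂ) * z ∈ RootOver (algebraMap K ℂ).fieldRange w d := fun q z hz =>
    rootOver_mul _ _ _ _ (RingHom.mem_fieldRange.2 ⟨(q : K), map_ratCast _ q⟩) z hz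
  obtain ⟨D, hD1, hD2, hG⟩ := hDm _ _ hx w
  have h1 := hm₀ m hm N (RootOver (algebraMap K ℂ).fieldRange w d) hq
    ⟨D, hD2, sep_of_good' l _ (rootOver_zero _ _ _ hd) hq _ D hD1 hG⟩
  refine le_trans ?_ h1
  rw [Nat.cast_le]
  refine Set.ncard_le_ncard (fun x hx => ⟨hx.1, hw hx.2⟩) ((hoffmanIn_finite l N m).subset (fun x hx => hx.1))

end Pool.Agent.LibPR29
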