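import Mathlib

set_option autoImplicit false

/-!
Counting tuples by the fibres of one coordinate.
-/

namespace Pool.Agent.LibPR29

open Finset

/-- counting by the fibres of the coordinate `i`. -/
theorem fibre_count {s : ℕ} (H : Fin s → Finset (List ℕ)) (i : Fin s) (B : Set (Fin s → List ℕ))
    (ε : ℝ) (hε : 0 ≤ ε)
    (h : ∀ y : Fin s → List ℕ, (∀ j, y j ∈ H j) →
      (({x ∈ (H i : Set (List ℕ)) | Function.update y i x ∈ B}).ncard : ℝ) ≤ ε * (H i).card) :
    (({w : Fin s → List ℕ | (∀ j, w j ∈ H j) ∧ w ∈ B}).ncard : ℝ) ≤ ε * ∏ j, ((H j).card : ℝ) := by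
  classical
  rcases (H i).eq_empty_or_nonempty with he | ⟨x₀, hx₀⟩
  · have h1 : {w : Fin s → List ℕ | (∀ j, w j ∈ H j) ∧ w ∈ B} = ∅ := by
      ext w
      simp only [Set.mem_setOf_eq, Set.mem_empty_iff_false, iff_false, not_and]
      intro hw
      have h2 := hw i
      rw [he] at h2
      exact absurd h2 (Finset.notMem_empty _)
    rw [h1, Set.ncard_empty, Nat.cast_zero]
    exact mul_nonneg hε (Finset.prod_nonneg fun j _ => Nat.cast_nonneg _)
  · set S : Finset (Fin s → List ℕ) := (Fintype.piFinset H).filter (fun w => w ∈ B) with hS
    have hSset : {w : Fin s → List ℕ | (∀ j, w j ∈ H j) ∧ w ∈ B} = ↑S := by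
      ext w
      simp only [Set.mem_setOf_eq, hS, Finset.coe_filter, Fintype.mem_piFinset]
    rw [hSset, Set.ncard_coe_finset]
    set T : Finset (Fin s → List ℕ) := Fintype.piFinset (Function.update H i {x₀}) with hT
    have hTmem : ∀ y ∈ T, ∀ j, y j ∈ H j := by
      intro y hy j
      rw [hT, Fintype.mem_piFinset] at hy
      by_cases hj : j = i
      · subst hj
        have h1 := hy j
        rw [Function.update_self, Finset.mem_singleton] at h1
        rw [h1]
        exact hx₀
      · have h1 := hy j
        rwa [Function.update_of_ne hj] at h1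
    have hmaps : ∀ w ∈ S, Function.update w i x₀ ∈ T := by
      intro w hw
      rw [hS, Finset.mem_filter, Fintype.mem_piFinset] at hw
      rw [hT, Fintype.mem_piFinset]
      intro j
      by_cases hj : j = i
      · subst hj
        rw [Function.update_self, Function.update_self]
        exact Finset.mem_singleton_self _
      · rw [Function.update_of_ne hj, Function.update_of_ne hj]
        exact hw.1 j
    have hcount := Finset.card_eq_sum_card_fiberwise (f := fun w : Fin s → List ℕ =>
      Function.update w i x₀) (s := S) (t := T) (fun w hw => hmaps w hw)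
    have hfib : ∀ y ∈ T, ((S.filter (fun w => Function.update w i x₀ = y)).card : ℝ)
        ≤ ε * (H i).card := by
      intro y hy
      refine le_trans ?_ (h y (hTmem y hy))
      rw [Nat.cast_le]
      have hfin : ({x ∈ (H i : Set (List ℕ)) | Function.update y i x ∈ B}).Finite :=
        (H i).finite_toSet.subset fun x hx => hx.1
      rw [Set.ncard_eq_toFinset_card _ hfin]
      refine Finset.card_le_card_of_injOn (fun w => w i) ?_ ?_
      · intro w hw
        have hw' := Finset.mem_filter.1 (Finset.mem_coe.1 hw)
        have hw1 := Finset.mem_filter.1 hw'.1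
        rw [Fintype.mem_piFinset] at hw1
        rw [Finset.mem_coe, Set.Finite.mem_toFinset]
        refine ⟨Finset.mem_coe.2 (hw1.1 i), ?_⟩
        have h3 : Function.update y i (w i) = w := by
          rw [← hw'.2, Function.update_idem, Function.update_eq_self]
        rw [h3]
        exact hw1.2
      · intro w hw w' hw' hww
        have h1 := (Finset.mem_filter.1 (Finset.mem_coe.1 hw)).2
        have h2 := (Finset.mem_filter.1 (Finset.mem_coe.1 hw')).2
        have h3 : Function.update y i (w i) = w := by
          rw [← h1, Function.update_idem, Function.update_eq_self]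
        have h4 : Function.update y i (w' i) = w' := by
          rw [← h2, Function.update_idem, Function.update_eq_self]
        have h5 : w i = w' i := hww
        rw [← h3, ← h4, h5]
    have hTcard : (T.card : ℝ) * (H i).card = ∏ j, ((H j).card : ℝ) := by
      rw [hT, Fintype.card_piFinset, ← Finset.mul_prod_erase Finset.univ
        (fun j => (Function.update H i {x₀} j).card) (Finset.mem_univ i),
        Function.update_self, Finset.card_singleton, one_mul,
        ← Finset.mul_prod_erase Finset.univ (fun j => ((H j).card : ℝ)) (Finset.mem_univ i),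
        Nat.cast_prod, mul_comm]
      congr 1
      refine Finset.prod_congr rfl fun j hj => ?_
      rw [Function.update_of_ne (Finset.ne_of_mem_erase hj)]
    calc ((S.card : ℕ) : ℝ) = ∑ y ∈ T, ((S.filter (fun w => Function.update w i x₀ = y)).card : ℝ) := by
          rw [hcount, Nat.cast_sum]
      _ ≤ ∑ _y ∈ T, ε * (H i).card := Finset.sum_le_sum hfib
      _ = ε * ∏ j, ((H j).card : ℝ) := by
          rw [Finset.sum_const, nsmul_eq_mul, ← hTcard]
          ring

end Pool.Agent.LibPR29
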