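import Pool.Agent.LibPR29.F2a
import Pool.Agent.LibPR29.F2b
import Pool.Agent.LibPR29.P1
import Pool.Agent.LibPR29.T1a

set_option autoImplicit false

namespace Pool.Agent.LibPR29

open Finset Pool.HB89

/-- the span of the integral closure has the separation property. -/
theorem span_good {K : Type} [Field K] [Algebra K ℂ] (x : ℂ) (W : Submodule K ℂ) (D : ℕ)
    (h : ∀ (ι : Type) [Fintype ι] (e : ι → ℕ), (∀ k, D ∣ e k) → Good x (IntOver W) e)
    (hD : 1 ≤ D) (S : Finset ℕ) (z : ℕ → ℂ) (hz : ∀ j ∈ S, z j ∈ Submodule.span K (IntOver W))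
    (hsum : ∑ j ∈ S, (x ^ D) ^ j * z j = 0) : ∀ j ∈ S, z j = 0 := by
  classical
  have h1 : ∀ j : S, ∃ (n : ℕ) (f : Fin n → K) (g : Fin n → IntOver W),
      ∑ i, f i • ((g i : ℂ)) = z j := fun j => Submodule.mem_span_set'.1 (hz j j.2)
  choose n f g hfg using h1
  have h2 := h (Σ j : S, Fin (n j)) (fun k => D * (k.1 : ℕ)) (fun k => Dvd.intro _ rfl)
    (fun k => f k.1 k.2 • ((g k.1 k.2 : ℂ))) (fun k => by
      rw [Algebra.smul_def]
      exact intOver_mul W _ _ (g k.1 k.2).2) (by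
      rw [Fintype.sum_sigma, ← hsum, ← Finset.sum_coe_sort S]
      refine Finset.sum_congr rfl (fun j _ => ?_)
      rw [← hfg j, Finset.mul_sum]
      refine Finset.sum_congr rfl (fun i _ => ?_)
      rw [← pow_mul])
  intro j hj
  have h3 := h2 (D * j)
  rw [Finset.sum_filter, Fintype.sum_sigma] at h3
  rw [← hfg ⟨j, hj⟩, ← h3]
  symm
  rw [Finset.sum_eq_single (⟨j, hj⟩ : S)]
  · refine Finset.sum_congr rfl (fun i _ => ?_)
    rw [if_pos rfl]
  · intro j' _ hne
    refine Finset.sum_eq_zero (fun i _ => ?_)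
    rw [if_neg]
    intro he
    apply hne
    have : (j' : ℕ) = j := Nat.eq_of_mul_eq_mul_left (by omega) he
    exact Subtype.ext this
  · intro hno
    exact absurd (Finset.mem_univ _) hno

/-- the levels of `x` from those of `y = x ^ D`. -/
theorem level_colouring {K : Type} [Field K] [Algebra K ℂ] (x : ℂ) (hx : Transcendental K x) (W : Submodule K ℂ)
    (hW : FiniteDimensional K W) (v : ℕ) :
    ∃ C : ℕ, ∀ U : Submodule K ℂ, FiniteDimensional K U → Module.finrank K U ≤ v →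
      ∃ χ : ℕ → Fin C, ∀ (S : Finset ℕ) (z : ℕ → ℂ),
        (∀ i ∈ S, ∀ j ∈ S, χ i = χ j) → (∀ j ∈ S, z j ∈ U ⊔ Submodule.span K (IntOver W)) →
          ∑ j ∈ S, x ^ j * z j = 0 → ∀ j ∈ S, z j = 0 := by
  classical
  obtain ⟨D₀, hD₀⟩ := good_fixed x hx W hW
  set D := max D₀ 1 with hD
  have hD1 : 1 ≤ D := le_max_right _ _
  have hgood := hD₀ D (le_max_left _ _)
  have hy : Transcendental K (x ^ D) := by
    intro h
    exact hx (IsAlgebraic.of_pow (by omega) h)
  obtain ⟨Γ, _, N, t, ht, h0, hadd, hc, hyN, hI⟩ := exists_norm (x ^ D) hy (Submodule.span K (IntOver W))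
    (fun S z hz hsum => span_good x W D hgood hD1 S z hz hsum)
  refine ⟨D * 2 ^ ((v + 1) ^ 2), fun U hUf hU => ?_⟩
  obtain ⟨χ, hχ⟩ := colouring_mod (x ^ D) (Submodule.span K (IntOver W)) Γ N t ht h0 hadd hc hyN hI v U hUf hU
  refine ⟨fun k => finProdFinEquiv (⟨k % D, Nat.mod_lt _ hD1⟩, χ (k / D)), fun S z hS hz hsum => ?_⟩
  rcases S.eq_empty_or_nonempty with rfl | ⟨k₀, hk₀⟩
  · simp
  have hcol : ∀ k ∈ S, k % D = k₀ % D ∧ χ (k / D) = χ (k₀ / D) := by
    intro k hk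
    have := finProdFinEquiv.injective (hS k hk k₀ hk₀)
    rw [Prod.mk.injEq] at this
    exact ⟨congrArg Fin.val this.1, this.2⟩
  set ρ := k₀ % D with hρ
  have hkd : ∀ k ∈ S, D * (k / D) + ρ = k := by
    intro k hk
    rw [← (hcol k hk).1]
    exact Nat.div_add_mod k D
  have hx0 : x ≠ 0 := by
    rintro rfl
    exact hx isAlgebraic_zero
  have hinj : Set.InjOn (fun k => k / D) (S : Set ℕ) := by
    intro k hk k' hk' he
    simp only at he
    rw [← hkd k hk, ← hkd k' hk', he]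
  have h1 := hχ (S.image (fun k => k / D)) (fun j => z (D * j + ρ)) ?_ ?_ ?_
  · intro k hk
    have := h1 (k / D) (Finset.mem_image_of_mem _ hk)
    simp only [hkd k hk] at this
    exact this
  · intro i hi j hj
    obtain ⟨k, hk, rfl⟩ := Finset.mem_image.1 hi
    obtain ⟨k', hk', rfl⟩ := Finset.mem_image.1 hj
    rw [(hcol k hk).2, (hcol k' hk').2]
  · intro j hj
    obtain ⟨k, hk, rfl⟩ := Finset.mem_image.1 hj
    simp only [hkd k hk]
    exact hz k hk
  · rw [Finset.sum_image hinj]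
    refine (mul_right_injective₀ (pow_ne_zero ρ hx0)) ?_
    simp only [mul_zero]
    rw [Finset.mul_sum, ← hsum]
    refine Finset.sum_congr rfl (fun k hk => ?_)
    rw [hkd k hk, ← mul_assoc, ← pow_mul, ← pow_add, add_comm ρ, hkd k hk]

/-- single values. -/
theorem mod_window (l v : ℕ) (ε : ℝ) (hε : 0 < ε) (K : Type) [Field K] [Algebra K ℂ]
      (hK : Transcendental K (Real.pi : ℂ)) (W : Submodule K ℂ) (hW : FiniteDimensional K W) :
    ∃ m₀ : ℕ, ∀ m : ℕ, m₀ ≤ m → ∀ N : ℕ, ∀ U : Submodule K ℂ, FiniteDimensional K U → Module.finrank K U ≤ v →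
        (({w ∈ hoffmanIn l N m | (mzv w : ℂ) ∈ U ⊔ Submodule.span K (IntOver W)}).ncard : ℝ) ≤
          ε * ((hoffmanIn l N m).ncard : ℝ) := by
  obtain ⟨M, hM⟩ := words l ε hε
  obtain ⟨C, hC⟩ := level_colouring _ (pi_inv hK) W hW v
  obtain ⟨m₀, hm₀⟩ := hM C
  refine ⟨m₀, fun m hm N U hUf hU => ?_⟩
  obtain ⟨χ, hχ⟩ := hC U hUf hU
  refine hm₀ m hm N ((U ⊔ Submodule.span K (IntOver W) : Submodule K ℂ) : Set ℂ) (fun q z hz => ?_) ⟨C, le_rfl,
    sep_of_colour (nu l) (sp l) (sp_measurable l) (sp_nonneg l) (Filter.Eventually.of_forall (sp_sum l))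
      K (Real.pi : ℂ) (by exact_mod_cast Real.pi_ne_zero) _ χ hχ _⟩
  have h4 : ((q : ℚ) : ℂ) = algebraMap K ℂ ((q : ℚ) : K) := by
    rw [map_ratCast]
  rw [h4, ← Algebra.smul_def]
  exact Submodule.smul_mem _ _ hz

/-- Part B: tuples. -/
theorem mod_tuples (s : ℕ) (l : Fin s → ℕ) (ε : ℝ) (hε : 0 < ε) (K : Type) [Field K] [Algebra K ℂ]
      (hK : Transcendental K (Real.pi : ℂ)) (W : Submodule K ℂ) (hW : FiniteDimensional K W) :
    ∃ m₀ : ℕ, ∀ N m : Fin s → ℕ, (∀ i, m₀ ≤ m i) →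
      (({w : Fin s → List ℕ | (∀ i, w i ∈ hoffmanIn (l i) (N i) (m i)) ∧
        ∃ b : Fin s → K, b ≠ 0 ∧ ∑ i, b i • (mzv (w i) : ℂ) ∈ Submodule.span K (IntOver W)}).ncard : ℝ) ≤
          ε * ∏ i, ((hoffmanIn (l i) (N i) (m i)).ncard : ℝ) := by
  classical
  have hε' : 0 < ε / (s + 1) := by positivity
  choose M hM using fun i : Fin s => mod_window (l i) s (ε / (s + 1)) hε' K hK W hW
  refine ⟨Finset.univ.sup M, fun N m hm => ?_⟩
  set H : Fin s → Finset (List ℕ) := fun i => (hoffmanIn_finite (l i) (N i) (m i)).toFinset with hH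
  have hHmem : ∀ i w, w ∈ H i ↔ w ∈ hoffmanIn (l i) (N i) (m i) := by
    intro i w
    rw [hH, Set.Finite.mem_toFinset]
  have hHcard : ∀ i, (hoffmanIn (l i) (N i) (m i)).ncard = (H i).card := fun i =>
    Set.ncard_eq_toFinset_card _ (hoffmanIn_finite (l i) (N i) (m i))
  set U : Fin s → (Fin s → List ℕ) → Submodule K ℂ := fun i y =>
    Submodule.span K (Set.range (fun j : Fin s => if j = i then (0 : ℂ) else (mzv (y j) : ℂ))) with hU
  set B : Fin s → Set (Fin s → List ℕ) := fun i =>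
    {y | (mzv (y i) : ℂ) ∈ U i y ⊔ Submodule.span K (IntOver W)} with hB
  have hcount : ∀ i, (({w : Fin s → List ℕ | (∀ j, w j ∈ H j) ∧ w ∈ B i}).ncard : ℝ) ≤
      ε / (s + 1) * ∏ j, ((H j).card : ℝ) := by
    intro i
    refine fibre_count H i (B i) (ε / (s + 1)) hε'.le (fun y _ => ?_)
    have hUy : Module.finrank K (U i y) ≤ s := by
      have := finrank_range_le_card (R := K) (fun j : Fin s => if j = i then (0 : ℂ) else (mzv (y j) : ℂ))
      rwa [Fintype.card_fin] at this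
    have h2 := hM i (m i) ((Finset.le_sup (Finset.mem_univ i)).trans (hm i)) (N i) (U i y)
      (Module.Finite.span_of_finite K (Set.finite_range _)) hUy
    rw [hHcard] at h2
    refine le_trans ?_ h2
    rw [Nat.cast_le]
    refine Set.ncard_le_ncard ?_ ((hoffmanIn_finite (l i) (N i) (m i)).subset (fun x hx => hx.1))
    rintro x ⟨hx1, hx2⟩
    refine ⟨(hHmem i x).1 (Finset.mem_coe.1 hx1), ?_⟩
    have hx3 : (mzv (Function.update y i x i) : ℂ) ∈ U i (Function.update y i x) ⊔ Submodule.span K (IntOver W) := hx2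
    have hUeq : U i (Function.update y i x) = U i y := by
      rw [hU]
      simp only
      congr 2
      funext j
      by_cases hj : j = i
      · rw [if_pos hj, if_pos hj]
      · rw [if_neg hj, if_neg hj, Function.update_of_ne hj]
    rw [hUeq, Function.update_self] at hx3
    exact hx3
  have hsub : {w : Fin s → List ℕ | (∀ i, w i ∈ hoffmanIn (l i) (N i) (m i)) ∧
        ∃ b : Fin s → K, b ≠ 0 ∧ ∑ i, b i • (mzv (w i) : ℂ) ∈ Submodule.span K (IntOver W)} ⊆
      ⋃ i ∈ (Finset.univ : Finset (Fin s)), {w : Fin s → List ℕ | (∀ j, w j ∈ H j) ∧ w ∈ B i} := by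
    rintro w ⟨hw, b, hb, hbw⟩
    obtain ⟨i, hi⟩ := Function.ne_iff.1 hb
    simp only [Set.mem_iUnion]
    refine ⟨i, Finset.mem_univ _, fun j => (hHmem j _).2 (hw j), ?_⟩
    show (mzv (w i) : ℂ) ∈ U i w ⊔ Submodule.span K (IntOver W)
    have hi' : b i ≠ 0 := hi
    rw [← Finset.add_sum_erase _ _ (Finset.mem_univ i)] at hbw
    have hrest : ∑ j ∈ Finset.univ.erase i, b j • (mzv (w j) : ℂ) ∈ U i w := by
      refine Submodule.sum_mem _ (fun j hj => Submodule.smul_mem _ _ (Submodule.subset_span ⟨j, ?_⟩))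
      simp only
      rw [if_neg (Finset.ne_of_mem_erase hj)]
    have h3 : b i • (mzv (w i) : ℂ) ∈ U i w ⊔ Submodule.span K (IntOver W) := by
      have h4 := Submodule.sub_mem _ (Submodule.mem_sup_right hbw) (Submodule.mem_sup_left hrest)
      rwa [add_sub_cancel_right] at h4
    have h5 := Submodule.smul_mem _ (b i)⁻¹ h3
    rwa [smul_smul, inv_mul_cancel₀ hi', one_smul] at h5
  have hfin : (⋃ i ∈ (Finset.univ : Finset (Fin s)),
      {w : Fin s → List ℕ | (∀ j, w j ∈ H j) ∧ w ∈ B i}).Finite := by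
    refine Set.Finite.biUnion (Finset.finite_toSet _) (fun i _ => ?_)
    refine (Finset.finite_toSet (Fintype.piFinset H)).subset ?_
    intro w hw
    rw [Finset.mem_coe, Fintype.mem_piFinset]
    exact hw.1
  have h6 : (({w : Fin s → List ℕ | (∀ i, w i ∈ hoffmanIn (l i) (N i) (m i)) ∧
        ∃ b : Fin s → K, b ≠ 0 ∧ ∑ i, b i • (mzv (w i) : ℂ) ∈ Submodule.span K (IntOver W)}).ncard : ℝ) ≤
      ∑ i : Fin s, (({w : Fin s → List ℕ | (∀ j, w j ∈ H j) ∧ w ∈ B i}).ncard : ℝ) := by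
    have h7 := (Set.ncard_le_ncard hsub hfin).trans (Finset.set_ncard_biUnion_le _ _)
    exact_mod_cast h7
  refine h6.trans ((Finset.sum_le_sum (fun i _ => hcount i)).trans ?_)
  rw [Finset.sum_const, Finset.card_univ, Fintype.card_fin, nsmul_eq_mul]
  simp only [hHcard]
  have h8 : (0 : ℝ) ≤ ∏ j, ((H j).card : ℝ) := Finset.prod_nonneg fun _ _ => Nat.cast_nonneg _
  have h9 : (s : ℝ) * (ε / (s + 1)) ≤ ε := by
    rw [mul_div_assoc', div_le_iff₀ (by positivity)]
    nlinarith [Nat.cast_nonneg (α := ℝ) s]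
  calc (s : ℝ) * (ε / (s + 1) * ∏ j, ((H j).card : ℝ)) = (s * (ε / (s + 1))) * ∏ j, ((H j).card : ℝ) := by ring
    _ ≤ ε * ∏ j, ((H j).card : ℝ) := mul_le_mul_of_nonneg_right h9 h8

end Pool.Agent.LibPR29
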