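import Pool.Agent.LibHof81.V3

set_option autoImplicit false

/-!
PLAN for `exists_norm`. Let `F := IntermediateField.adjoin K {y}` (subfield of `ℂ`), `R := Algebra.adjoin K {y}` (instance
`IsFractionRing R F`), and `b := Module.Basis.ofVectorSpace K I` (or `Basis.ofVectorSpace`).
1. `(fun k => (b k : ℂ))` is linearly independent over `R` (elements of `R` are `aeval y p`, `Algebra.adjoin_singleton_eq_range_aeval`; a
   relation `∑ p_k(y) b_k = 0` is `∑ j, y ^ j (∑ k, coeff_j(p_k) b_k) = 0`, so by `hI` all `∑ k, coeff_j(p_k) b_k = 0`, so all `p_k = 0`), hence over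
   `F` (`LinearIndependent.iff_fractionRing`).
2. Extend to an `F`-basis `B` of `ℂ` (`Module.Basis.extend` of `LinearIndepOn`/`LinearIndependent F Subtype.val` for the range of `b`).
3. `Pool.Agent.LibHof81.exists_valuation y hy` gives `Γ` and `v : Valuation ℂ Γ` with `1 < v y` and `v = 1` on `K` minus `0`. Put
   `N z := (B.repr z).support.sup (fun k => v ((B.repr z k : F) : ℂ))` (`Γ` is an `OrderBot` with bottom `0`; if this makes instance
   trouble, use the maximum over the support, or characterise `N z ≤ γ ↔ ∀ k, v (B.repr z k) ≤ γ`), `t := v y`.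
   `N (y z) = t N z` because `y ∈ F`; `N (c z) = N z` for `c ∈ K`, `c ≠ 0`; for `z ∈ I`, `z ≠ 0`, the coordinates are in `K` (those of `b.repr`) and
   not all `0`, so `N z = 1`.
-/

namespace Pool.Agent.LibPR29

open scoped IntermediateField.algebraAdjoinAdjoin

open Polynomial in
/-- a `K`-basis of `I` is independent over `K[y]` -/
private theorem F2a_indep {K : Type} [Field K] [Algebra K ℂ] (y : ℂ)
    (I : Submodule K ℂ)
    (hI : ∀ (S : Finset ℕ) (z : ℕ → ℂ), (∀ j ∈ S, z j ∈ I) → ∑ j ∈ S, y ^ j * z j = 0 → ∀ j ∈ S, z j = 0)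
    {ι : Type} (b : Module.Basis ι K I) :
    LinearIndependent (Algebra.adjoin K {y}) (fun k => ((b k : I) : ℂ)) := by
  classical
  rw [linearIndependent_iff']
  intro s g hg k hk
  have hp : ∀ k, ∃ p : K[X], aeval y p = ((g k : Algebra.adjoin K {y}) : ℂ) := by
    intro k
    have h1 : ((g k : Algebra.adjoin K {y}) : ℂ) ∈ (aeval (R := K) y).range := by
      rw [← Algebra.adjoin_singleton_eq_range_aeval]
      exact (g k).2
    obtain ⟨p, hp⟩ := h1
    exact ⟨p, hp⟩
  choose p hp using hp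
  obtain ⟨n, hn⟩ : ∃ n : ℕ, ∀ k ∈ s, (p k).natDegree < n :=
    ⟨s.sup (fun k => (p k).natDegree) + 1, fun k hk => Nat.lt_succ_of_le (Finset.le_sup (f := fun k => (p k).natDegree) hk)⟩
  have h2 : ∀ k ∈ s, ((g k : Algebra.adjoin K {y}) : ℂ) =
      ∑ j ∈ Finset.range n, (p k).coeff j • y ^ j := by
    intro k hk
    rw [← hp k, aeval_eq_sum_range' (hn k hk)]
  obtain ⟨z, hz⟩ : ∃ z : ℕ → I, z = fun j => ∑ k ∈ s, (p k).coeff j • b k := ⟨_, rfl⟩
  have h3 : ∑ j ∈ Finset.range n, y ^ j * ((z j : I) : ℂ) = 0 := by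
    rw [← hg]
    have h4 : ∀ j, ((z j : I) : ℂ) = ∑ k ∈ s, (p k).coeff j • ((b k : I) : ℂ) := by
      intro j
      rw [hz]
      simp only [Submodule.coe_sum, Submodule.coe_smul]
    have h5 : ∀ k ∈ s, g k • ((b k : I) : ℂ) =
        ∑ j ∈ Finset.range n, y ^ j * ((p k).coeff j • ((b k : I) : ℂ)) := by
      intro k hk
      have h6 : g k • ((b k : I) : ℂ) = ((g k : Algebra.adjoin K {y}) : ℂ) * ((b k : I) : ℂ) := rfl
      rw [h6, h2 k hk, Finset.sum_mul]
      refine Finset.sum_congr rfl (fun j _ => ?_)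
      rw [Algebra.smul_def, Algebra.smul_def]
      ring
    rw [Finset.sum_congr rfl h5, Finset.sum_comm]
    refine Finset.sum_congr rfl (fun j _ => ?_)
    rw [h4, Finset.mul_sum]
  have h7 := hI (Finset.range n) (fun j => ((z j : I) : ℂ)) (fun j _ => (z j).2) h3
  have h8 : ∀ j ∈ Finset.range n, ∀ k ∈ s, (p k).coeff j = 0 := by
    intro j hj
    have h9 : z j = 0 := Subtype.ext (h7 j hj)
    rw [hz] at h9
    exact linearIndependent_iff'.1 b.linearIndependent s (fun k => (p k).coeff j) h9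
  apply Subtype.ext
  rw [h2 k hk]
  show _ = (0 : ℂ)
  refine Finset.sum_eq_zero (fun j hj => ?_)
  rw [h8 j hj k hk, zero_smul]

/-- a norm on the `K(y)`-space `ℂ` which is `1` on `I`. -/
theorem exists_norm {K : Type} [Field K] [Algebra K ℂ] (y : ℂ) (hy : Transcendental K y)
    (I : Submodule K ℂ)
    (hI : ∀ (S : Finset ℕ) (z : ℕ → ℂ), (∀ j ∈ S, z j ∈ I) → ∑ j ∈ S, y ^ j * z j = 0 → ∀ j ∈ S, z j = 0) :
    ∃ (Γ : Type) (_ : LinearOrderedCommGroupWithZero Γ) (N : ℂ → Γ) (t : Γ), 1 < t ∧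
      (∀ z, N z = 0 ↔ z = 0) ∧ (∀ z z', N (z + z') ≤ max (N z) (N z')) ∧
      (∀ (c : K) (z : ℂ), c ≠ 0 → N (c • z) = N z) ∧ (∀ z, N (y * z) = t * N z) ∧
      (∀ z ∈ I, z ≠ 0 → N z = 1) := by
  classical
  obtain ⟨Γ, hΓ, v, hvy, hvK⟩ := Pool.Agent.LibHof81.exists_valuation y hy
  have b := Module.Basis.ofVectorSpace K I
  have hli := F2a_indep y I hI b
  rw [LinearIndependent.iff_fractionRing (Algebra.adjoin K {y}) (IntermediateField.adjoin K {y})] at hli
  have hs := hli.linearIndepOn_id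
  obtain ⟨ι, B, hB⟩ : ∃ (ι : Type) (B : Module.Basis ι (IntermediateField.adjoin K {y}) ℂ),
      ∀ k, ∃ i, B i = ((b k : I) : ℂ) := by
    refine ⟨_, Module.Basis.extend hs, fun k => ?_⟩
    refine ⟨⟨((b k : I) : ℂ), ?_⟩, ?_⟩
    · exact Module.Basis.subset_extend hs ⟨k, rfl⟩
    · exact Module.Basis.extend_apply_self hs _
  obtain ⟨N, hN⟩ : ∃ N : ℂ → Γ, N = fun z => (B.repr z).support.sup
      (fun k => v ((B.repr z k : IntermediateField.adjoin K {y}) : ℂ)) := ⟨_, rfl⟩
  have hNle : ∀ z γ, N z ≤ γ ↔ ∀ k, v ((B.repr z k : IntermediateField.adjoin K {y}) : ℂ) ≤ γ := by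
    intro z γ
    rw [hN]
    simp only [Finset.sup_le_iff, Finsupp.mem_support_iff]
    constructor
    · intro h k
      by_cases h0 : B.repr z k = 0
      · rw [h0]
        simp
      · exact h k h0
    · intro h k _
      exact h k
  have hle : ∀ z k, v ((B.repr z k : IntermediateField.adjoin K {y}) : ℂ) ≤ N z := fun z k => (hNle z (N z)).1 le_rfl k
  have hsmul_le : ∀ (f : IntermediateField.adjoin K {y}) (z : ℂ), N (f • z) ≤ v (f : ℂ) * N z := by
    intro f z
    rw [hNle]
    intro k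
    rw [map_smul, Finsupp.smul_apply, smul_eq_mul]
    have h1 : (((f * B.repr z k : IntermediateField.adjoin K {y})) : ℂ) =
        (f : ℂ) * ((B.repr z k : IntermediateField.adjoin K {y}) : ℂ) := rfl
    rw [h1, map_mul]
    exact mul_le_mul_right (hle z k) _
  have hsmul : ∀ (f : IntermediateField.adjoin K {y}) (z : ℂ), f ≠ 0 → N (f • z) = v (f : ℂ) * N z := by
    intro f z hf
    refine le_antisymm (hsmul_le f z) ?_
    have h1 := hsmul_le f⁻¹ (f • z)
    rw [smul_smul, inv_mul_cancel₀ hf, one_smul] at h1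
    have hf0 : (f : ℂ) ≠ 0 := fun h => hf (Subtype.ext h)
    have hv0 : v (f : ℂ) ≠ 0 := (v.ne_zero_iff).2 hf0
    have h2 : v (((f⁻¹ : IntermediateField.adjoin K {y})) : ℂ) = (v (f : ℂ))⁻¹ := by
      have h3 : (((f⁻¹ : IntermediateField.adjoin K {y})) : ℂ) = (f : ℂ)⁻¹ := rfl
      rw [h3, map_inv₀]
    rw [h2] at h1
    calc v (f : ℂ) * N z ≤ v (f : ℂ) * ((v (f : ℂ))⁻¹ * N (f • z)) := mul_le_mul_right h1 _
      _ = N (f • z) := by rw [← mul_assoc, mul_inv_cancel₀ hv0, one_mul]
  have hyF : y ∈ IntermediateField.adjoin K {y} := IntermediateField.mem_adjoin_simple_self K y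
  have hy0 : y ≠ 0 := by
    rintro rfl
    exact hy isAlgebraic_zero
  have hcoord : ∀ z ∈ I, ∀ i, ∃ c : K, ((B.repr z i : IntermediateField.adjoin K {y}) : ℂ) = algebraMap K ℂ c := by
    have h1 : ∀ k, ∀ i, ∃ c : K, ((B.repr ((b k : I) : ℂ) i : IntermediateField.adjoin K {y}) : ℂ) = algebraMap K ℂ c := by
      intro k i
      obtain ⟨j, hj⟩ := hB k
      rw [← hj, B.repr_self, Finsupp.single_apply]
      split_ifs
      · exact ⟨1, by simp⟩
      · exact ⟨0, by simp⟩
    intro z hz i
    obtain ⟨w, hw⟩ : ∃ w : I, w = ⟨z, hz⟩ := ⟨_, rfl⟩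
    have h2 : z = ∑ k ∈ (b.repr w).support, (b.repr w k) • ((b k : I) : ℂ) := by
      have h3 := b.linearCombination_repr w
      rw [Finsupp.linearCombination_apply, Finsupp.sum] at h3
      have h4 := congrArg (fun x : I => (x : ℂ)) h3
      simp only [Submodule.coe_sum, Submodule.coe_smul] at h4
      rw [h4, hw]
    choose c hc using h1
    refine ⟨∑ k ∈ (b.repr w).support, (b.repr w k) * c k i, ?_⟩
    have h5 : B.repr z i = ∑ k ∈ (b.repr w).support,
        (algebraMap K (IntermediateField.adjoin K {y}) (b.repr w k)) * B.repr ((b k : I) : ℂ) i := by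
      conv_lhs => rw [h2]
      rw [map_sum, Finsupp.finsetSum_apply]
      refine Finset.sum_congr rfl (fun k _ => ?_)
      have h6 : (b.repr w k) • ((b k : I) : ℂ) =
          (algebraMap K (IntermediateField.adjoin K {y}) (b.repr w k)) • ((b k : I) : ℂ) := by
        rw [algebraMap_smul]
      rw [h6, map_smul, Finsupp.smul_apply, smul_eq_mul]
    rw [h5]
    push_cast
    refine Finset.sum_congr rfl (fun k _ => ?_)
    rw [hc k i]
  refine ⟨Γ, hΓ, N, v y, hvy, ?_, ?_, ?_, ?_, ?_⟩
  · intro z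
    constructor
    · intro h
      have h1 : B.repr z = 0 := by
        ext k
        have h2 := hle z k
        rw [h, le_zero_iff, v.zero_iff] at h2
        rw [h2]
        simp
      exact (B.repr.map_eq_zero_iff).1 h1
    · rintro rfl
      rw [← le_zero_iff, hNle]
      intro k
      rw [map_zero]
      simp
  · intro z z'
    rw [hNle]
    intro k
    rw [map_add, Finsupp.add_apply]
    have h1 : (((B.repr z k + B.repr z' k : IntermediateField.adjoin K {y})) : ℂ) =
        ((B.repr z k : IntermediateField.adjoin K {y}) : ℂ) + ((B.repr z' k : IntermediateField.adjoin K {y}) : ℂ) := rfl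
    rw [h1]
    exact (v.map_add _ _).trans (max_le_max (hle z k) (hle z' k))
  · intro c z hc
    have h1 : c • z = (algebraMap K (IntermediateField.adjoin K {y}) c) • z := by
      rw [algebraMap_smul]
    have h2 : algebraMap K (IntermediateField.adjoin K {y}) c ≠ 0 := by
      rwa [Ne, map_eq_zero]
    rw [h1, hsmul _ _ h2]
    have h3 : ((algebraMap K (IntermediateField.adjoin K {y}) c : IntermediateField.adjoin K {y}) : ℂ) =
        algebraMap K ℂ c := rfl
    rw [h3, hvK c hc, one_mul]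
  · intro z
    have h1 := hsmul ⟨y, hyF⟩ z (fun h => hy0 (congrArg Subtype.val h))
    exact h1
  · intro z hz hz0
    apply le_antisymm
    · rw [hNle]
      intro k
      obtain ⟨c, hc⟩ := hcoord z hz k
      rw [hc]
      by_cases h0 : c = 0
      · rw [h0]
        simp
      · rw [hvK c h0]
    · have h1 : ∃ k, B.repr z k ≠ 0 := by
        by_contra hcon
        push Not at hcon
        apply hz0
        exact (B.repr.map_eq_zero_iff).1 (Finsupp.ext hcon)
      obtain ⟨k, hk⟩ := h1
      obtain ⟨c, hc⟩ := hcoord z hz k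
      have h2 : c ≠ 0 := by
        rintro rfl
        apply hk
        apply Subtype.ext
        rw [hc, map_zero]
        rfl
      calc (1 : Γ) = v ((B.repr z k : IntermediateField.adjoin K {y}) : ℂ) := by rw [hc, hvK c h2]
        _ ≤ N z := hle z k

end Pool.Agent.LibPR29
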