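import Pool.Agent.LibPR29.P1
import Pool.Agent.LibPR29.T1a
import Pool.Agent.LibPR29.T1b

set_option autoImplicit false

/-!
PLAN for `tuples`. Let `ε' := ε / (s * (d+1)^s + 1)` and `m₀` the maximum over `i : Fin s`, `k ∈ [1, d]` of the `m₀` of
`root_window (l i) ((d+1)^s * v) k ε'`. Let `H i` be the finset of `hoffmanIn (l i) (N i) (m i)` (`hoffmanIn_finite`). The values `mzv (w j)` are
`≠ 0` (`hoffmanIn_eq`, `mzv_word_ne_zero` in Pool/Agent/LibHB89/E3.lean). The bad set is contained in the union over `i : Fin s` and the exponents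
`α : Fin s → Fin (d+1)` of the sets `{w | (∀ j, w j ∈ H j) ∧ w ∈ B i α}`, `B i α` = the tuples with a relation `P` as in the statement for
this `i` and `α` (`α j ≤ d` because `α` is in the support, `MvPolynomial.le_totalDegree`). By `fibre_count` and `exists_space` (with
`z j = mzv (y j)`) each has at most `ε' ∏ |H j|` elements: for `α i ≥ 1` by `root_window`; for `α i = 0`, `RootSet W' 0` is empty.
-/

namespace Pool.Agent.LibPR29

open Finset Pool.HB89

/-- Part A. -/
theorem tuples (v d s : ℕ) (l : Fin s → ℕ) (ε : ℝ) (hε : 0 < ε) :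
    ∃ m₀ : ℕ, ∀ N m : Fin s → ℕ, (∀ i, m₀ ≤ m i) → ∀ (K : Type) [Field K] [Algebra K ℂ],
      Transcendental K (Real.pi : ℂ) → ∀ W : Submodule K ℂ, FiniteDimensional K W →
        Module.finrank K W ≤ v →
        (({w : Fin s → List ℕ | (∀ i, w i ∈ hoffmanIn (l i) (N i) (m i)) ∧
          ∃ P : MvPolynomial (Fin s) ℂ, P.totalDegree ≤ d ∧
            (∃ (i : Fin s) (α : Fin s →₀ ℕ), (∃ a : K, a ≠ 0 ∧ P.coeff α = algebraMap K ℂ a) ∧
              ∀ β, β ≠ α → P.coeff β ∈ W ∧ (P.coeff β ≠ 0 → β i < α i)) ∧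
            MvPolynomial.eval (fun i => (mzv (w i) : ℂ)) P = 0}).ncard : ℝ) ≤
          ε * ∏ i, ((hoffmanIn (l i) (N i) (m i)).ncard : ℝ) := by
  classical
  set ε' : ℝ := ε / (s * (d + 1) ^ s + 1) with hε'def
  have hε' : 0 < ε' := by positivity
  choose M hM using fun (i : Fin s) (k : ℕ) =>
    root_window (l i) ((d + 1) ^ s * v) (k + 1) (Nat.le_add_left 1 k) ε' hε'
  refine ⟨(Finset.univ : Finset (Fin s)).sup fun i => (Finset.range d).sup (M i),
    fun N m hm K _ _ hK W hW hWv => ?_⟩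
  set H : Fin s → Finset (List ℕ) := fun i => (hoffmanIn_finite (l i) (N i) (m i)).toFinset with hH
  have hHmem : ∀ i w, w ∈ H i ↔ w ∈ hoffmanIn (l i) (N i) (m i) := by
    intro i w
    rw [hH, Set.Finite.mem_toFinset]
  have hHcard : ∀ i, (hoffmanIn (l i) (N i) (m i)).ncard = (H i).card := fun i =>
    Set.ncard_eq_toFinset_card _ (hoffmanIn_finite (l i) (N i) (m i))
  have hHne : ∀ i, ∀ w ∈ H i, (mzv w : ℂ) ≠ 0 := by
    intro i w hw
    rw [hHmem, hoffmanIn_eq] at hw
    obtain ⟨a, _, rfl⟩ := hw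
    exact mzv_word_ne_zero _ a
  -- the classes
  set B : Fin s × (Fin s → Fin (d + 1)) → Set (Fin s → List ℕ) := fun p =>
    {w | ∃ P : MvPolynomial (Fin s) ℂ, P.totalDegree ≤ d ∧
      ((∃ a : K, a ≠ 0 ∧
          P.coeff (Finsupp.equivFunOnFinite.symm fun j => (p.2 j : ℕ)) = algebraMap K ℂ a) ∧
        ∀ β, β ≠ (Finsupp.equivFunOnFinite.symm fun j => (p.2 j : ℕ)) →
          P.coeff β ∈ W ∧ (P.coeff β ≠ 0 → β p.1 < (Finsupp.equivFunOnFinite.symm fun j => (p.2 j : ℕ)) p.1)) ∧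
      MvPolynomial.eval (fun i => (mzv (w i) : ℂ)) P = 0} with hB
  have hfib : ∀ p : Fin s × (Fin s → Fin (d + 1)),
      (({w : Fin s → List ℕ | (∀ j, w j ∈ H j) ∧ w ∈ B p}).ncard : ℝ) ≤
        ε' * ∏ j, ((H j).card : ℝ) := by
    rintro ⟨i, β⟩
    refine fibre_count H i (B (i, β)) ε' hε'.le fun y hy => ?_
    set α : Fin s →₀ ℕ := Finsupp.equivFunOnFinite.symm fun j => (β j : ℕ) with hα
    obtain ⟨W', hW'f, hW'd, hW'⟩ := exists_space W hW d i α (fun j => (mzv (y j) : ℂ))
      fun j => hHne j _ (hy j)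
    have hupd : ∀ x : List ℕ, (fun j => (mzv (Function.update y i x j) : ℂ)) =
        Function.update (fun j => (mzv (y j) : ℂ)) i (mzv x : ℂ) := by
      intro x
      funext j
      by_cases hj : j = i
      · subst hj
        rw [Function.update_self, Function.update_self]
      · rw [Function.update_of_ne hj, Function.update_of_ne hj]
    have hsub : ∀ x, Function.update y i x ∈ B (i, β) → (mzv x : ℂ) ∈ RootSet W' (α i) := by
      rintro x ⟨P, hP1, ⟨hP2, hP3⟩, hP4⟩
      rw [hupd] at hP4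
      exact hW' _ P hP1 hP2 hP3 hP4
    have hW'v : Module.finrank K W' ≤ (d + 1) ^ s * v := hW'd.trans (Nat.mul_le_mul_left _ hWv)
    rcases Nat.eq_zero_or_pos (α i) with h0 | h0
    · have hempty : {x ∈ (H i : Set (List ℕ)) | Function.update y i x ∈ B (i, β)} = ∅ := by
        rw [Set.eq_empty_iff_forall_notMem]
        rintro x ⟨_, hx⟩
        have h1 := hsub x hx
        rw [h0] at h1
        obtain ⟨c, _, hc⟩ := h1
        simp at hc
      rw [hempty, Set.ncard_empty, Nat.cast_zero]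
      positivity
    · obtain ⟨k, hk⟩ : ∃ k, α i = k + 1 := ⟨α i - 1, by omega⟩
      have hkd : k < d := by
        have h1 : α i = (β i : ℕ) := rfl
        have h2 := (β i).2
        omega
      have hmi : M i k ≤ m i := by
        refine le_trans ?_ (hm i)
        refine le_trans ?_ (Finset.le_sup (f := fun i => (Finset.range d).sup (M i)) (Finset.mem_univ i))
        exact Finset.le_sup (f := M i) (Finset.mem_range.2 hkd)
      have h2 := hM i k (m i) hmi (N i) K hK W' hW'f hW'v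
      rw [hHcard] at h2
      refine le_trans ?_ h2
      rw [Nat.cast_le]
      refine Set.ncard_le_ncard ?_ ((hoffmanIn_finite (l i) (N i) (m i)).subset fun x hx => hx.1)
      rintro x ⟨hx1, hx2⟩
      refine ⟨(hHmem i x).1 (Finset.mem_coe.1 hx1), ?_⟩
      rw [← hk]
      exact hsub x hx2
  -- the union
  have hfin : ∀ T : Set (Fin s → List ℕ), {w : Fin s → List ℕ | (∀ j, w j ∈ H j) ∧ w ∈ T} =
      ((Fintype.piFinset H).filter (fun w => w ∈ T) : Finset (Fin s → List ℕ)) := by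
    intro T
    ext w
    simp [Fintype.mem_piFinset]
  set Bad : Set (Fin s → List ℕ) := {w | ∃ P : MvPolynomial (Fin s) ℂ, P.totalDegree ≤ d ∧
            (∃ (i : Fin s) (α : Fin s →₀ ℕ), (∃ a : K, a ≠ 0 ∧ P.coeff α = algebraMap K ℂ a) ∧
              ∀ β, β ≠ α → P.coeff β ∈ W ∧ (P.coeff β ≠ 0 → β i < α i)) ∧
            MvPolynomial.eval (fun i => (mzv (w i) : ℂ)) P = 0} with hBad
  have hset : {w : Fin s → List ℕ | (∀ i, w i ∈ hoffmanIn (l i) (N i) (m i)) ∧
          ∃ P : MvPolynomial (Fin s) ℂ, P.totalDegree ≤ d ∧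
            (∃ (i : Fin s) (α : Fin s →₀ ℕ), (∃ a : K, a ≠ 0 ∧ P.coeff α = algebraMap K ℂ a) ∧
              ∀ β, β ≠ α → P.coeff β ∈ W ∧ (P.coeff β ≠ 0 → β i < α i)) ∧
            MvPolynomial.eval (fun i => (mzv (w i) : ℂ)) P = 0} =
      {w : Fin s → List ℕ | (∀ j, w j ∈ H j) ∧ w ∈ Bad} := by
    ext w
    simp only [Set.mem_setOf_eq, hHmem, hBad]
  have hcover : (Fintype.piFinset H).filter (fun w => w ∈ Bad) ⊆
      (Finset.univ : Finset (Fin s × (Fin s → Fin (d + 1)))).biUnion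
        fun p => (Fintype.piFinset H).filter (fun w => w ∈ B p) := by
    intro w hw
    rw [Finset.mem_filter] at hw
    obtain ⟨hw1, P, hP1, ⟨i, α, ⟨a, ha0, ha⟩, hP3⟩, hP4⟩ := hw
    have hαd : ∀ j, α j < d + 1 := by
      intro j
      have h1 : α ∈ P.support := by
        rw [MvPolynomial.mem_support_iff, ha]
        intro h
        exact ha0 ((map_eq_zero _).1 h)
      have h2 := MvPolynomial.le_totalDegree h1
      rw [Finsupp.sum_fintype _ _ (fun _ => rfl)] at h2
      have h3 : α j ≤ ∑ i, α i := Finset.single_le_sum (fun i _ => Nat.zero_le (α i)) (Finset.mem_univ j)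
      omega
    have hαe : (Finsupp.equivFunOnFinite.symm fun j => ((⟨α j, hαd j⟩ : Fin (d + 1)) : ℕ)) = α := by
      ext j
      rfl
    rw [Finset.mem_biUnion]
    refine ⟨(i, fun j => ⟨α j, hαd j⟩), Finset.mem_univ _, ?_⟩
    rw [Finset.mem_filter]
    refine ⟨hw1, P, hP1, ⟨⟨a, ha0, ?_⟩, ?_⟩, hP4⟩
    · show P.coeff (Finsupp.equivFunOnFinite.symm fun j => ((⟨α j, hαd j⟩ : Fin (d + 1)) : ℕ)) = _
      rw [hαe]
      exact ha
    · show ∀ β, β ≠ (Finsupp.equivFunOnFinite.symm fun j => ((⟨α j, hαd j⟩ : Fin (d + 1)) : ℕ)) →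
          P.coeff β ∈ W ∧ (P.coeff β ≠ 0 →
            β i < (Finsupp.equivFunOnFinite.symm fun j => ((⟨α j, hαd j⟩ : Fin (d + 1)) : ℕ)) i)
      rw [hαe]
      exact hP3
  rw [hset, hfin, Set.ncard_coe_finset]
  simp only [hHcard]
  have hsum : (((Fintype.piFinset H).filter (fun w => w ∈ Bad)).card : ℝ) ≤
      ∑ p : Fin s × (Fin s → Fin (d + 1)), ε' * ∏ j, ((H j).card : ℝ) := by
    refine le_trans (Nat.cast_le.2 ((Finset.card_le_card hcover).trans Finset.card_biUnion_le)) ?_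
    rw [Nat.cast_sum]
    refine Finset.sum_le_sum fun p _ => ?_
    have h1 := hfib p
    rw [hfin, Set.ncard_coe_finset] at h1
    exact h1
  refine hsum.trans ?_
  rw [Finset.sum_const, Finset.card_univ, Fintype.card_prod, Fintype.card_fin, Fintype.card_fun,
    Fintype.card_fin, Fintype.card_fin, nsmul_eq_mul, ← mul_assoc]
  refine mul_le_mul_of_nonneg_right ?_ (Finset.prod_nonneg fun _ _ => Nat.cast_nonneg _)
  rw [hε'def, mul_div_assoc', div_le_iff₀ (by positivity)]
  push_cast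
  nlinarith [hε.le]

end Pool.Agent.LibPR29
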