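import Pool.Agent.LibPR29.Defs
import Pool.Agent.LibHB89.B8

set_option autoImplicit false

/-!
PLAN for `window`: follow the proof of `Pool.HB89.B8_window` (Pool/Agent/LibHB89/B8.lean); `B8_rel` is the integrated relation,
`B8_level` its part of level `t`. With `μ b := ∫ ω, ∏ j, s ω j ^ (2 * b j) ∂ν` apply `hG` to
`r : (Fin (l+1) → Fin m) → ℂ`, `r i := if (fun j => (i j : ℕ)) ∈ F then (c i) * (p ^ (2 * ∑ (a + i)) * μ (a + i)) else 0`
(in `Z` by `hF`, `hZq`, `hZ0`). For `i ∈ F` the residue of `∑ j, i j` mod `D` is a constant `ρ` (`hcol`; `Nat.ModEq.add_left_cancel`), so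
`∑ j, i j = eD l m D i + ρ` and `((p ^ 2)⁻¹) ^ (eD i) * r i = (p ^ 2) ^ (∑ a + ρ) * c i * μ (a + i)`; the sum over `i` is
`(p ^ 2) ^ (∑ a + ρ) * ∑ i ∈ F, c i * μ (a + i) = 0` by `B8_rel`. The conclusion of `hG` at the level `j = D * (t / D)`:
if `t % D = ρ` then `{i : eD i = j} ∩ F = {i ∈ F : ∑ i = t}` and on it the factor `p ^ (2 ∑ (a + i))` is constant and `≠ 0`, so
`∑ i ∈ F, ∑ i = t, c i * μ (a + i) = 0`; if `t % D ≠ ρ` (or `F` is empty) then `F.filter (∑ i = t)` is empty.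
-/

namespace Pool.Agent.LibPR29

open MeasureTheory Finset Pool.HB89

open Classical in
private theorem W1_sum {l m : ℕ} (F : Finset (Fin (l + 1) → ℕ)) (hFm : ∀ i ∈ F, ∀ j, i j < m)
    (g : (Fin (l + 1) → ℕ) → ℂ) (P : (Fin (l + 1) → ℕ) → Prop) [DecidablePred P] :
    (∑ i : Fin (l + 1) → Fin m with P (fun j => (i j : ℕ)),
      (if (fun j => (i j : ℕ)) ∈ F then g (fun j => (i j : ℕ)) else 0)) =
      ∑ i ∈ F.filter P, g i := by
  rw [← Finset.sum_filter, Finset.filter_filter]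
  refine Finset.sum_nbij (fun (i : Fin (l + 1) → Fin m) => fun j => (i j : ℕ)) ?_ ?_ ?_ ?_
  · intro i hi
    rw [Finset.mem_filter] at hi
    exact Finset.mem_filter.2 ⟨hi.2.2, hi.2.1⟩
  · intro i _ i' _ h
    funext j
    exact Fin.ext (congrFun h j)
  · intro i hi
    rw [Finset.mem_coe, Finset.mem_filter] at hi
    refine ⟨fun j => ⟨i j, hFm i hi.1 j⟩, ?_, rfl⟩
    rw [Finset.mem_coe, Finset.mem_filter]
    exact ⟨Finset.mem_univ _, hi.2, hi.1⟩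
  · intro i _
    rfl

open Classical in
private theorem W1_sum0 {l m : ℕ} (F : Finset (Fin (l + 1) → ℕ)) (hFm : ∀ i ∈ F, ∀ j, i j < m)
    (g : (Fin (l + 1) → ℕ) → ℂ) :
    (∑ i : Fin (l + 1) → Fin m,
      (if (fun j => (i j : ℕ)) ∈ F then g (fun j => (i j : ℕ)) else 0)) = ∑ i ∈ F, g i := by
  have h := W1_sum F hFm g (fun _ => True)
  rw [Finset.filter_true, Finset.filter_true] at h
  exact h

open Classical in
/-- The rich windows are zeros (compare `B8_window`). -/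
theorem window {l : ℕ} {Ω : Type} [MeasurableSpace Ω] (ν : Measure Ω)
    [IsFiniteMeasure ν]
    (s : Ω → Fin (l + 1) → ℝ) (hs : Measurable s) (h0 : ∀ᵐ ω ∂ν, ∀ i, 0 ≤ s ω i)
    (h1 : ∀ᵐ ω ∂ν, ∑ i, s ω i = 1)
    (p : ℂ) (hp0 : p ≠ 0) (Z : Set ℂ) (hZ0 : (0 : ℂ) ∈ Z)
    (hZq : ∀ (q : ℚ), ∀ z ∈ Z, (q : ℂ) * z ∈ Z) (m D : ℕ) (hD : 1 ≤ D)
    (hG : Good ((p ^ 2)⁻¹) Z (eD l m D))
    (F : Finset (Fin (l + 1) → ℕ)) (hFm : ∀ i ∈ F, ∀ j, i j < m) (c : (Fin (l + 1) → ℕ) → ℚ)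
    (hc : ∀ s : Fin (l + 1) → ℝ, ∑ j, s j = 1 → ∑ i ∈ F, (c i : ℝ) * ∏ j, (s j) ^ (2 * i j) = 0)
    (a : Fin (l + 1) → ℕ)
    (hF : ∀ i ∈ F, p ^ (2 * ∑ j, (a + i) j) *
      ((∫ ω, ∏ j, s ω j ^ (2 * (a + i) j) ∂ν : ℝ) : ℂ) ∈ Z)
    (hcol : ∀ i ∈ F, ∀ i' ∈ F, (∑ j, (a + i) j) % D = (∑ j, (a + i') j) % D) (t : ℕ) :
    ∫ ω, (∏ j, s ω j ^ (2 * a j)) * MvPolynomial.eval (s ω) (B8_poly F c t) ∂ν = 0 := by
  set μ : (Fin (l + 1) → ℕ) → ℝ := fun b => ∫ ω, ∏ j, s ω j ^ (2 * b j) ∂ν with hμ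
  rw [← B8_level ν s hs h0 h1 F c t a]
  rcases F.eq_empty_or_nonempty with hFe | ⟨i0, hi0⟩
  · rw [hFe]
    simp
  obtain ⟨A, hA⟩ : ∃ A : ℕ, A = ∑ j, a j := ⟨_, rfl⟩
  obtain ⟨ρ, hρ⟩ : ∃ ρ : ℕ, ρ = (∑ j, i0 j) % D := ⟨_, rfl⟩
  have hsumA : ∀ i : Fin (l + 1) → ℕ, ∑ j, (a + i) j = A + ∑ j, i j := by
    intro i
    rw [hA]
    simp only [Pi.add_apply, Finset.sum_add_distrib]
  have hmod : ∀ i ∈ F, (∑ j, i j) % D = ρ := by
    intro i hi
    have h2 := hcol i hi i0 hi0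
    rw [hsumA, hsumA] at h2
    rw [hρ]
    exact Nat.ModEq.add_left_cancel' A h2
  have hdm : ∀ i ∈ F, ∑ j, i j = D * ((∑ j, i j) / D) + ρ := by
    intro i hi
    rw [← hmod i hi]
    exact (Nat.div_add_mod _ _).symm
  obtain ⟨g, hg⟩ : ∃ g : (Fin (l + 1) → ℕ) → ℂ, g = fun i =>
      ((c i : ℚ) : ℂ) * (p ^ (2 * ∑ j, (a + i) j) * ((μ (a + i) : ℝ) : ℂ)) := ⟨_, rfl⟩
  obtain ⟨r, hr⟩ : ∃ r : (Fin (l + 1) → Fin m) → ℂ, r = fun i =>
      if (fun j => (i j : ℕ)) ∈ F then g (fun j => (i j : ℕ)) else 0 := ⟨_, rfl⟩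
  have hrZ : ∀ k, r k ∈ Z := by
    intro k
    rw [hr]
    dsimp only
    split_ifs with hk
    · rw [hg]
      exact hZq _ _ (hF _ hk)
    · exact hZ0
  have hpow : ∀ k : ℕ, ((p ^ 2)⁻¹) ^ k * p ^ (2 * k) = 1 := by
    intro k
    rw [inv_pow, ← pow_mul]
    exact inv_mul_cancel₀ (pow_ne_zero _ hp0)
  have hterm : ∀ i ∈ F, ((p ^ 2)⁻¹) ^ (D * ((∑ j, i j) / D)) * g i =
      p ^ (2 * (A + ρ)) * (((c i : ℚ) : ℂ) * ((μ (a + i) : ℝ) : ℂ)) := by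
    intro i hi
    rw [hg]
    dsimp only
    rw [hsumA]
    have h3 := hdm i hi
    obtain ⟨e, he⟩ : ∃ e : ℕ, e = D * ((∑ j, i j) / D) := ⟨_, rfl⟩
    rw [← he] at h3 ⊢
    rw [h3]
    have h4 : p ^ (2 * (A + (e + ρ))) = p ^ (2 * e) * p ^ (2 * (A + ρ)) := by
      rw [← pow_add]
      congr 1
      ring
    rw [h4]
    calc ((p ^ 2)⁻¹) ^ e * (((c i : ℚ) : ℂ) * (p ^ (2 * e) * p ^ (2 * (A + ρ)) * ((μ (a + i) : ℝ) : ℂ)))
        = (((p ^ 2)⁻¹) ^ e * p ^ (2 * e)) * (p ^ (2 * (A + ρ)) * (((c i : ℚ) : ℂ) * ((μ (a + i) : ℝ) : ℂ))) := by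
          ring
      _ = _ := by rw [hpow, one_mul]
  have hsum : ∑ k, ((p ^ 2)⁻¹) ^ eD l m D k * r k = 0 := by
    have h5 : ∑ k, ((p ^ 2)⁻¹) ^ eD l m D k * r k =
        ∑ i ∈ F, ((p ^ 2)⁻¹) ^ (D * ((∑ j, i j) / D)) * g i := by
      rw [← W1_sum0 F hFm (fun i => ((p ^ 2)⁻¹) ^ (D * ((∑ j, i j) / D)) * g i)]
      refine Finset.sum_congr rfl (fun k _ => ?_)
      rw [hr]
      dsimp only
      split_ifs
      · rfl
      · rw [mul_zero]
    rw [h5, Finset.sum_congr rfl hterm, ← Finset.mul_sum]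
    have h6 := B8_rel ν s hs h0 h1 F c hc a
    have h7 : ((∑ i ∈ F, (c i : ℝ) * μ (a + i) : ℝ) : ℂ) = 0 := by
      rw [h6]; simp
    have h8 : ∑ i ∈ F, ((c i : ℚ) : ℂ) * ((μ (a + i) : ℝ) : ℂ) = 0 := by
      rw [← h7]
      push_cast
      rfl
    rw [h8, mul_zero]
  have hall := hG r hrZ hsum (D * (t / D))
  by_cases ht : t % D = ρ
  · have htd : t = D * (t / D) + ρ := by
      rw [← ht]
      exact (Nat.div_add_mod _ _).symm
    have h9 : (∑ k with eD l m D k = D * (t / D), r k) =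
        ∑ i ∈ F.filter (fun i => D * ((∑ j, i j) / D) = D * (t / D)), g i := by
      rw [← W1_sum F hFm g (fun i => D * ((∑ j, i j) / D) = D * (t / D)), hr]
      rfl
    have h10 : F.filter (fun i => D * ((∑ j, i j) / D) = D * (t / D)) =
        F.filter (fun i => ∑ j, i j = t) := by
      refine Finset.filter_congr (fun i hi => ?_)
      have h11 := hdm i hi
      constructor
      · intro h12
        rw [h12] at h11
        omega
      · intro h12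
        rw [h12]
    rw [h9, h10] at hall
    have h13 : ∑ i ∈ F.filter (fun i => ∑ j, i j = t), g i =
        p ^ (2 * (A + t)) * ∑ i ∈ F.filter (fun i => ∑ j, i j = t),
          ((c i : ℚ) : ℂ) * ((μ (a + i) : ℝ) : ℂ) := by
      rw [Finset.mul_sum]
      refine Finset.sum_congr rfl (fun i hi => ?_)
      rw [Finset.mem_filter] at hi
      rw [hg]
      dsimp only
      rw [hsumA, hi.2]
      ring
    rw [h13] at hall
    rcases mul_eq_zero.1 hall with h14 | h14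
    · exact absurd h14 (pow_ne_zero _ hp0)
    · have h15 : ((∑ i ∈ F.filter (fun i => ∑ j, i j = t), (c i : ℝ) * μ (a + i) : ℝ) : ℂ) = 0 := by
        rw [← h14]
        push_cast
        rfl
      exact_mod_cast h15
  · have h16 : F.filter (fun i => ∑ j, i j = t) = ∅ := by
      rw [Finset.filter_eq_empty_iff]
      intro i hi h17
      apply ht
      rw [← h17]
      exact hmod i hi
    rw [h16, Finset.sum_empty]

end Pool.Agent.LibPR29
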